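import Mathlib

open MeasureTheory ProbabilityTheory Filter Topology
open scoped ENNReal NNReal

namespace Pool.Agent.Hhelper98.QuasiWalk

noncomputable section

/-! ## Part A: rational approximation and orbits -/

/-- Arbitrarily large denominators in Dirichlet's theorem. -/
lemma exists_good_den {β : ℝ} (hβ : Irrational β) (M : ℕ) :
    ∃ r : ℚ, M < r.den ∧ |β - r| < 1 / (r.den : ℝ) ^ 2 := by
  by_contra hcon
  push Not at hcon
  have hinf := Real.infinite_rat_abs_sub_lt_one_div_den_sq_of_irrational hβ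
  apply hinf
  have hfin : (Set.image (fun p : ℤ × ℕ => (p.1 / p.2 : ℚ))
      ((Set.Icc (-(⌈(|β| + 1) * M⌉)) (⌈(|β| + 1) * M⌉)) ×ˢ (Set.Iic M))).Finite :=
    Set.Finite.image _ ((Set.finite_Icc _ _).prod (Set.finite_Iic _))
  refine hfin.subset ?_
  intro r hr
  have hden : r.den ≤ M := by
    by_contra h
    push Not at h
    exact absurd hr (not_lt.2 (hcon r h))
  refine ⟨(r.num, r.den), ⟨?_, hden⟩, Rat.num_div_den r⟩
  have h1 : |β - r| < 1 := by
    refine lt_of_lt_of_le hr ?_
    have : (1 : ℝ) ≤ r.den := by exact_mod_cast r.pos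
    rw [div_le_one (by positivity)]
    nlinarith
  have h2 : |(r : ℝ)| ≤ |β| + 1 := by
    have := abs_sub_abs_le_abs_sub (r : ℝ) β
    rw [abs_sub_comm] at this
    linarith
  have h3 : (r.num : ℝ) = r * r.den := by
    have : (r : ℝ) = (r.num : ℝ) / (r.den : ℝ) := by
      exact_mod_cast (Rat.cast_def r : (r : ℝ) = _)
    rw [this]
    have : (r.den : ℝ) ≠ 0 := by exact_mod_cast r.den_ne_zero
    field_simp
  have h4 : |(r.num : ℝ)| ≤ (|β| + 1) * M := by
    rw [h3, abs_mul, abs_of_nonneg (by positivity : (0 : ℝ) ≤ r.den)]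
    have : (r.den : ℝ) ≤ M := by exact_mod_cast hden
    exact mul_le_mul h2 this (by positivity) (by positivity)
  have h5 : |r.num| ≤ ⌈(|β| + 1) * M⌉ := by
    have : ((|r.num| : ℤ) : ℝ) ≤ (|β| + 1) * M := by push_cast; exact h4
    have := this.trans (Int.le_ceil _)
    exact_mod_cast this
  exact abs_le.1 h5

/-- `N` is a good time for the rotation by `b`: from any point, the orbit of length `N` is
`2/N`-dense, and it does not accumulate too much at that scale. -/
structure Good (b : UnitAddCircle) (N : ℕ) : Prop where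
  pos : 0 < N
  cover : ∀ c x : UnitAddCircle, ∃ j < N, dist x (c + j • b) ≤ 2 / N
  mult : ∀ c x : UnitAddCircle,
    ((Finset.range N).filter (fun j => dist x (c + j • b) ≤ 2 / N)).card ≤ 13

lemma exists_near (N : ℕ) [NeZero N] (u : UnitAddCircle) :
    ∃ k : ZMod N, dist u (ZMod.toAddCircle k) ≤ 1 / N := by
  obtain ⟨x, rfl⟩ := QuotientAddGroup.mk_surjective u
  have hN : (0 : ℝ) < N := Nat.cast_pos.2 (NeZero.pos N)
  refine ⟨((round (N * x) : ℤ) : ZMod N), ?_⟩
  rw [ZMod.toAddCircle_intCast, dist_eq_norm]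
  have h1 : ((x : UnitAddCircle) - ((round ((N : ℝ) * x) / N : ℝ) : UnitAddCircle))
      = ((x - round ((N : ℝ) * x) / N : ℝ) : UnitAddCircle) := rfl
  change ‖(x : UnitAddCircle) - _‖ ≤ _
  rw [h1]
  have h2 := abs_sub_round ((N : ℝ) * x)
  have h3 : ‖((x - round ((N : ℝ) * x) / N : ℝ) : UnitAddCircle)‖ ≤ |x - round ((N : ℝ) * x) / N| :=
    QuotientAddGroup.norm_mk_le_norm
  refine h3.trans ?_
  have h4 : x - round ((N : ℝ) * x) / N = (N * x - round ((N : ℝ) * x)) / N := by
    field_simp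
  rw [h4, abs_div, abs_of_pos hN]
  gcongr
  linarith

lemma small_norm (N : ℕ) [NeZero N] (k : ZMod N) (hk : ‖ZMod.toAddCircle k‖ ≤ 6 / N) :
    k ∈ (Finset.Icc (-6 : ℤ) 6).image (fun i : ℤ => (i : ZMod N)) := by
  have hN : (0 : ℝ) < N := Nat.cast_pos.2 (NeZero.pos N)
  rw [ZMod.toAddCircle_apply, UnitAddCircle.norm_eq] at hk
  rw [Finset.mem_image]
  refine ⟨(k.val : ℤ) - N * round ((k.val : ℝ) / N), ?_, ?_⟩
  · have h1 : |((k.val : ℝ)) - N * round ((k.val : ℝ) / N)| ≤ 6 := by
      have h4 : ((k.val : ℝ)) - N * round ((k.val : ℝ) / N)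
          = N * ((k.val : ℝ) / N - round ((k.val : ℝ) / N)) := by field_simp
      rw [h4, abs_mul, abs_of_pos hN]
      calc (N : ℝ) * _ ≤ N * (6 / N) := by gcongr
        _ = 6 := by field_simp
    have h2 := abs_le.1 h1
    rw [Finset.mem_Icc]
    constructor
    · have := h2.1
      exact_mod_cast this
    · have := h2.2
      exact_mod_cast this
  · push_cast
    rw [ZMod.natCast_self, zero_mul, sub_zero]
    simp

lemma norm_coe_le (x : ℝ) : ‖(x : UnitAddCircle)‖ ≤ |x| :=
  QuotientAddGroup.norm_mk_le_norm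

lemma nsmul_coe (j : ℕ) (x : ℝ) : j • (x : UnitAddCircle) = ((j * x : ℝ) : UnitAddCircle) := by
  rw [← AddCircle.coe_nsmul, nsmul_eq_mul]

lemma exists_good {β : ℝ} (hβ : Irrational β) (M : ℕ) :
    ∃ N, M < N ∧ Good (β : UnitAddCircle) N := by
  obtain ⟨r, hr, hlt⟩ := exists_good_den hβ M
  refine ⟨r.den, hr, ?_⟩
  have : NeZero r.den := ⟨r.den_ne_zero⟩
  have hN : (0 : ℝ) < r.den := Nat.cast_pos.2 (NeZero.pos _)
  have hcop : IsUnit ((r.num : ℤ) : ZMod r.den) := by
    rw [ZMod.coe_int_isUnit_iff_isCoprime]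
    rw [Int.isCoprime_iff_gcd_eq_one]
    have := r.reduced
    rw [Int.gcd_comm]
    simpa [Nat.Coprime, Int.gcd] using this
  set a : ZMod r.den := ((r.num : ℤ) : ZMod r.den) with ha
  -- closeness of the two orbits
  have hnear : ∀ j : ℕ, j ≤ r.den →
      dist (j • (β : UnitAddCircle)) (ZMod.toAddCircle ((j : ZMod r.den) * a)) ≤ 1 / r.den := by
    intro j hj
    have h1 : ((j : ZMod r.den) * a) = (((j : ℤ) * r.num : ℤ) : ZMod r.den) := by
      rw [ha]; push_cast; ring
    rw [h1, ZMod.toAddCircle_intCast, nsmul_coe, dist_eq_norm, ← AddCircle.coe_sub]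
    refine (norm_coe_le _).trans ?_
    have h2 : (j : ℝ) * β - (((j : ℤ) * r.num : ℤ) : ℝ) / r.den = j * (β - r) := by
      have : (r : ℝ) = (r.num : ℝ) / (r.den : ℝ) := Rat.cast_def r
      rw [this]
      push_cast
      ring
    rw [h2, abs_mul, abs_of_nonneg (by positivity : (0 : ℝ) ≤ j)]
    have h3 : (j : ℝ) ≤ r.den := by exact_mod_cast hj
    calc (j : ℝ) * |β - r| ≤ r.den * (1 / (r.den : ℝ) ^ 2) := by gcongr
      _ = 1 / r.den := by field_simp
  refine ⟨NeZero.pos _, ?_, ?_⟩
  · intro c x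
    obtain ⟨k, hk⟩ := exists_near r.den (x - c)
    obtain ⟨u, hu⟩ := hcop
    refine ⟨(k * ↑u⁻¹ : ZMod r.den).val, ZMod.val_lt _, ?_⟩
    have h1 := hnear (k * ↑u⁻¹ : ZMod r.den).val (ZMod.val_lt _).le
    rw [ZMod.natCast_zmod_val, ← hu, mul_assoc, Units.inv_mul, mul_one] at h1
    have h2 : dist x (c + (k * ↑u⁻¹ : ZMod r.den).val • (β : UnitAddCircle))
        = dist (x - c) ((k * ↑u⁻¹ : ZMod r.den).val • (β : UnitAddCircle)) := by
      rw [dist_eq_norm, dist_eq_norm]
      congr 1
      abel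
    rw [h2]
    rw [dist_comm] at h1
    calc _ ≤ _ := dist_triangle _ _ _
      _ ≤ 1 / r.den + 1 / r.den := add_le_add hk h1
      _ = 2 / r.den := by ring
  · intro c x
    set S := (Finset.range r.den).filter
      (fun j => dist x (c + j • (β : UnitAddCircle)) ≤ 2 / r.den) with hS
    rcases S.eq_empty_or_nonempty with he | ⟨j0, hj0⟩
    · rw [he]; simp
    have hcard : ((Finset.Icc (-6 : ℤ) 6).image (fun i : ℤ => (i : ZMod r.den))).card ≤ 13 := by
      refine Finset.card_image_le.trans ?_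
      simp
    refine le_trans ?_ hcard
    refine Finset.card_le_card_of_injOn (fun j : ℕ => ((j : ZMod r.den) - j0) * a) ?_ ?_
    · intro j hj
      have hj' := (Finset.mem_filter.1 (Finset.mem_coe.1 hj))
      have hj0' := (Finset.mem_filter.1 hj0)
      have n1 := hnear j (Finset.mem_range.1 hj'.1).le
      have n2 := hnear j0 (Finset.mem_range.1 hj0'.1).le
      apply small_norm
      beta_reduce
      rw [sub_mul, map_sub, ← dist_eq_norm]
      have e1 := dist_triangle4 (ZMod.toAddCircle ((j : ZMod r.den) * a)) (j • (β : UnitAddCircle))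
        (j0 • (β : UnitAddCircle)) (ZMod.toAddCircle ((j0 : ZMod r.den) * a))
      have e2 : dist (j • (β : UnitAddCircle)) (j0 • (β : UnitAddCircle))
          = dist (c + j • (β : UnitAddCircle)) (c + j0 • (β : UnitAddCircle)) := by
        rw [dist_eq_norm, dist_eq_norm]; congr 1; abel
      have e3 := dist_triangle_left (c + j • (β : UnitAddCircle)) (c + j0 • (β : UnitAddCircle)) x
      rw [dist_comm] at n1
      have e4 : (6 : ℝ) / r.den = 1 / r.den + (2 / r.den + 2 / r.den) + 1 / r.den := by ring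
      rw [e4]
      refine e1.trans ?_
      rw [e2]
      have := hj'.2
      have := hj0'.2
      gcongr
      exact e3.trans (add_le_add hj'.2 hj0'.2)
    · intro j hj j' hj' hjj
      have hj1 := Finset.mem_range.1 (Finset.mem_filter.1 (Finset.mem_coe.1 hj)).1
      have hj2 := Finset.mem_range.1 (Finset.mem_filter.1 (Finset.mem_coe.1 hj')).1
      have h1 := hcop.mul_right_cancel hjj
      have h2 : ((j : ℕ) : ZMod r.den) = (j' : ℕ) := by
        have := congrArg (fun t => t + (j0 : ZMod r.den)) h1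
        simpa using this
      rw [ZMod.natCast_eq_natCast_iff] at h2
      exact Nat.ModEq.eq_of_lt_of_lt h2 hj1 hj2

end

end Pool.Agent.Hhelper98.QuasiWalk
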