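import Mathlib

/-!
Definitions for the quasi-periodic walk of problem `MP_8d4b21_pr`.
-/

open MeasureTheory ProbabilityTheory Filter
open scoped ENNReal

namespace Pool.Agent.Hhelper98.QuasiWalk

noncomputable section

/-- The transition operator of the chain on the circle: from `y` the chain jumps to `y + α` with
probability `p y` and to `y - α` with probability `1 - p y`. -/
def transOp (α : ℝ) (p : C(UnitAddCircle, Set.Ioo (0 : ℝ) 1)) (φ : UnitAddCircle → ℝ)
    (y : UnitAddCircle) : ℝ :=
  (p y : ℝ) * φ (y + (α : UnitAddCircle)) + (1 - (p y : ℝ)) * φ (y - (α : UnitAddCircle))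

/-- A Borel measure on the circle is stationary for the chain if it is a probability measure and
its integral of `P φ` equals its integral of `φ` for every continuous `φ`. -/
def IsStationary (α : ℝ) (p : C(UnitAddCircle, Set.Ioo (0 : ℝ) 1))
    (ν : Measure UnitAddCircle) : Prop :=
  IsProbabilityMeasure ν ∧ ∀ φ : C(UnitAddCircle, ℝ),
    ∫ y, transOp α p φ y ∂ν = ∫ y, φ y ∂ν

/-- The walk is symmetric: `∫ log p = ∫ log (1 - p)` with respect to Lebesgue measure. -/
def IsSymmetric (p : C(UnitAddCircle, Set.Ioo (0 : ℝ) 1)) : Prop :=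
  ∫ y : UnitAddCircle, Real.log (p y : ℝ) = ∫ y : UnitAddCircle, Real.log (1 - (p y : ℝ))

end

end Pool.Agent.Hhelper98.QuasiWalk
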