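import Pool.Agent.Hhelper98.QuasiWalk.Flux
import Pool.Agent.Hhelper98.QuasiWalk.Defs

open MeasureTheory ProbabilityTheory Filter Topology
open scoped ENNReal NNReal

namespace Pool.Agent.Hhelper98.QuasiWalk

noncomputable section

/-! ## Part E: stationary measures are quasi-invariant with an explicit cocycle -/

lemma no_flux' (b : UnitAddCircle) {A B : UnitAddCircle → ℝ} (hA : Continuous A)
    (hB : Continuous B) (hA0 : ∀ y, 0 < A y) (hB0 : ∀ y, 0 < B y)
    (hint : ∫ y : UnitAddCircle, Real.log (A y) = ∫ y : UnitAddCircle, Real.log (B y))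
    (ν : Measure UnitAddCircle) [IsFiniteMeasure ν] (c : ℝ≥0∞)
    (h : ν.withDensity (fun y => ENNReal.ofReal (A y))
      = (ν.withDensity (fun y => ENNReal.ofReal (B y))).map (fun y => y + b) + c • volume) :
    c = 0 := by
  have hlA : Continuous fun y => Real.log (A y) := hA.log fun y => (hA0 y).ne'
  have hlB : Continuous fun y => Real.log (B y) := hB.log fun y => (hB0 y).ne'
  have hAm := hA.measurable
  have hBm := hB.measurable
  have hfin : IsFiniteMeasure (ν.withDensity (fun y => ENNReal.ofReal (A y))) :=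
    isFiniteMeasure_withDensity_ofReal (cont_int ν hA).2
  have hl : Continuous fun y => Real.log (B y) - Real.log (A y) := hlB.sub hlA
  refine no_flux b hl ?_ (ν.withDensity (fun y => ENNReal.ofReal (A y))) c ?_
  · rw [integral_sub (cont_int _ hlB) (cont_int _ hlA), hint, sub_self]
  · rw [← withDensity_mul ν (by fun_prop) (by
      have := hl.measurable
      fun_prop)]
    have e : ((fun y => ENNReal.ofReal (A y)) *
        fun y => ENNReal.ofReal (Real.exp (Real.log (B y) - Real.log (A y))))
        = fun y => ENNReal.ofReal (B y) := by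
      ext y
      rw [Pi.mul_apply, ← ENNReal.ofReal_mul (hA0 y).le, Real.exp_sub, Real.exp_log (hA0 y),
        Real.exp_log (hB0 y)]
      congr 1
      have := (hA0 y).ne'
      field_simp
    rw [e]
    exact h

lemma ext_of_cont {μ ν : Measure UnitAddCircle} [IsFiniteMeasure μ] [IsFiniteMeasure ν]
    (h : ∀ φ : C(UnitAddCircle, ℝ), ∫ y, φ y ∂μ = ∫ y, φ y ∂ν) : μ = ν := by
  refine ext_of_forall_integral_eq_of_IsFiniteMeasure fun f => ?_
  exact h f.toContinuousMap

/-- Detailed balance: the mass sent to the right from `y` equals the mass sent to the left from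
`y + α`. -/
theorem balance {α : ℝ} (hα : Irrational α) {p : C(UnitAddCircle, Set.Ioo (0 : ℝ) 1)}
    (hsym : IsSymmetric p) {ν : Measure UnitAddCircle} (hν : IsStationary α p ν) :
    (ν.withDensity (fun y => ENNReal.ofReal (p y : ℝ))).map (fun y => y + (α : UnitAddCircle))
      = ν.withDensity (fun y => ENNReal.ofReal (1 - (p y : ℝ))) := by
  obtain ⟨hprob, hst⟩ := hν
  set P : UnitAddCircle → ℝ := fun y => (p y : ℝ) with hP
  have hPc : Continuous P := continuous_subtype_val.comp p.continuous
  have hQc : Continuous fun y => 1 - P y := continuous_const.sub hPc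
  have hP0 : ∀ y, 0 < P y := fun y => (p y).2.1
  have hQ0 : ∀ y, 0 < 1 - P y := fun y => sub_pos.2 (p y).2.2
  have hPm : Measurable P := hPc.measurable
  set b : UnitAddCircle := (α : UnitAddCircle) with hb
  set νP := ν.withDensity (fun y => ENNReal.ofReal (P y)) with hνP
  set νQ := ν.withDensity (fun y => ENNReal.ofReal (1 - P y)) with hνQ
  have fP : IsFiniteMeasure νP := isFiniteMeasure_withDensity_ofReal (cont_int ν hPc).2
  have fQ : IsFiniteMeasure νQ := isFiniteMeasure_withDensity_ofReal (cont_int ν hQc).2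
  have iP : ∀ φ : UnitAddCircle → ℝ, ∫ y, φ y ∂νP = ∫ y, P y * φ y ∂ν := by
    intro φ
    rw [hνP, integral_withDensity_eq_integral_toReal_smul (by fun_prop)
      (Eventually.of_forall fun y => ENNReal.ofReal_lt_top)]
    refine integral_congr_ae (Eventually.of_forall fun y => ?_)
    beta_reduce
    rw [ENNReal.toReal_ofReal (hP0 y).le, smul_eq_mul]
  have iQ : ∀ φ : UnitAddCircle → ℝ, ∫ y, φ y ∂νQ = ∫ y, (1 - P y) * φ y ∂ν := by
    intro φ
    rw [hνQ, integral_withDensity_eq_integral_toReal_smul (by fun_prop)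
      (Eventually.of_forall fun y => ENNReal.ofReal_lt_top)]
    refine integral_congr_ae (Eventually.of_forall fun y => ?_)
    beta_reduce
    rw [ENNReal.toReal_ofReal (hQ0 y).le, smul_eq_mul]
  set μ₂ := νQ.map (fun y => y - b) with hμ₂
  have f2 : IsFiniteMeasure μ₂ := inferInstance
  have i2 : ∀ φ : UnitAddCircle → ℝ, Continuous φ →
      ∫ y, φ y ∂μ₂ = ∫ y, (1 - P y) * φ (y - b) ∂ν := by
    intro φ hφ
    rw [hμ₂, integral_map (by fun_prop) hφ.aestronglyMeasurable, iQ]
  have hflux := flux_const hα νP μ₂ (by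
    intro φ
    have hφ := φ.continuous
    rw [iP, iP, i2 (fun y => φ (y + b)) (hφ.comp (continuous_add_const b)), i2 _ hφ]
    have h1 := hst φ
    unfold transOp at h1
    rw [integral_add] at h1
    rotate_left
    · exact cont_int _ (hPc.mul (hφ.comp (continuous_add_const b)))
    · exact cont_int _ (hQc.mul (hφ.comp (continuous_id.sub continuous_const)))
    have h2 : ∫ y, φ y ∂ν = ∫ y, P y * φ y ∂ν + ∫ y, (1 - P y) * φ y ∂ν := by
      have i1 : Integrable (fun y => P y * φ y) ν := cont_int _ (hPc.mul hφ)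
      have i2 : Integrable (fun y => (1 - P y) * φ y) ν := cont_int _ (hQc.mul hφ)
      rw [← integral_add i1 i2]
      refine integral_congr_ae (Eventually.of_forall fun y => ?_)
      beta_reduce
      ring
    simp only [sub_add_cancel]
    linarith)
  set c := νP.real Set.univ - μ₂.real Set.univ with hc
  have hmap : ∀ μ : Measure UnitAddCircle, (μ.map (fun y => y - b)).map (fun y => y + b) = μ := by
    intro μ
    rw [Measure.map_map (by fun_prop) (by fun_prop)]
    have : ((fun y : UnitAddCircle => y + b) ∘ fun y => y - b) = id := by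
      ext y; simp
    rw [this, Measure.map_id]
  have iv : ∀ (d : ℝ), 0 ≤ d → ∀ φ : C(UnitAddCircle, ℝ),
      ∫ y, φ y ∂(ENNReal.ofReal d • (volume : Measure UnitAddCircle)) = d * ∫ y, φ y := by
    intro d hd φ
    rw [integral_smul_measure, ENNReal.toReal_ofReal hd, smul_eq_mul]
  have fsm : ∀ d : ℝ, IsFiniteMeasure (ENNReal.ofReal d • (volume : Measure UnitAddCircle)) := by
    intro d
    exact (volume : Measure UnitAddCircle).smul_finite ENNReal.ofReal_ne_top
  rcases le_total 0 c with hc0 | hc0
  · have f3 := fsm c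
    have h1 : νP = μ₂ + ENNReal.ofReal c • volume := by
      refine ext_of_cont fun φ => ?_
      rw [integral_add_measure (cont_int _ φ.continuous) (cont_int _ φ.continuous), iv c hc0]
      linarith [hflux φ]
    have h2 : ENNReal.ofReal c = 0 := by
      refine no_flux' (-b) hPc hQc hP0 hQ0 hsym ν _ ?_
      simpa only [← sub_eq_add_neg] using h1
    rw [h2, zero_smul, add_zero] at h1
    rw [h1, hμ₂, hmap]
  · have f3 := fsm (-c)
    have h1 : μ₂ = νP + ENNReal.ofReal (-c) • volume := by
      refine ext_of_cont fun φ => ?_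
      rw [integral_add_measure (cont_int _ φ.continuous) (cont_int _ φ.continuous),
        iv (-c) (by linarith)]
      linarith [hflux φ]
    have h3 : νQ = νP.map (fun y => y + b) + ENNReal.ofReal (-c) • volume := by
      rw [← hmap νQ, ← hμ₂, h1, Measure.map_add _ _ (by fun_prop), Measure.map_smul]
      congr 2
      exact map_add_right_eq_self (volume : Measure UnitAddCircle) b
    have h2 : ENNReal.ofReal (-c) = 0 :=
      no_flux' b hQc hPc hQ0 hP0 hsym.symm ν _ h3
    rw [h2, zero_smul, add_zero] at h3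
    exact h3.symm

/-- The cocycle of the walk. -/
def coc (α : ℝ) (p : C(UnitAddCircle, Set.Ioo (0 : ℝ) 1)) (y : UnitAddCircle) : ℝ :=
  Real.log (p y : ℝ) - Real.log (1 - (p (y + (α : UnitAddCircle)) : ℝ))

theorem rel_of_balance {α : ℝ} {p : C(UnitAddCircle, Set.Ioo (0 : ℝ) 1)}
    {ν : Measure UnitAddCircle}
    (h : (ν.withDensity (fun y => ENNReal.ofReal (p y : ℝ))).map
      (fun y => y + (α : UnitAddCircle)) = ν.withDensity (fun y => ENNReal.ofReal (1 - (p y : ℝ)))) :
    Rel (α : UnitAddCircle) (coc α p) ν := by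
  intro ψ hψ
  set P : UnitAddCircle → ℝ := fun y => (p y : ℝ) with hP
  have hPc : Continuous P := continuous_subtype_val.comp p.continuous
  have hP0 : ∀ y, 0 < P y := fun y => (p y).2.1
  have hQ0 : ∀ y, 0 < 1 - P y := fun y => sub_pos.2 (p y).2.2
  have hPm : Measurable P := hPc.measurable
  have hg : Measurable fun y => ψ y * ENNReal.ofReal (1 - P y)⁻¹ := by fun_prop
  have h1 : ∫⁻ y, ψ y ∂ν = ∫⁻ y, ψ y * ENNReal.ofReal (1 - P y)⁻¹
      ∂(ν.withDensity (fun y => ENNReal.ofReal (1 - P y))) := by
    rw [lintegral_withDensity_eq_lintegral_mul _ (by fun_prop) hg]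
    refine lintegral_congr fun y => ?_
    rw [Pi.mul_apply, mul_comm, mul_assoc, ← ENNReal.ofReal_mul (inv_nonneg.2 (hQ0 y).le),
      inv_mul_cancel₀ (hQ0 y).ne', ENNReal.ofReal_one, mul_one]
  have hg2 : Measurable fun y => ψ (y + (α : UnitAddCircle))
      * ENNReal.ofReal (1 - P (y + (α : UnitAddCircle)))⁻¹ :=
    hg.comp (measurable_id.add_const (α : UnitAddCircle))
  rw [h1, ← h, lintegral_map hg (by fun_prop),
    lintegral_withDensity_eq_lintegral_mul _ (by fun_prop) hg2]
  refine lintegral_congr fun y => ?_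
  have e : Real.exp (coc α p y) = P y * (1 - P (y + (α : UnitAddCircle)))⁻¹ := by
    unfold coc
    rw [Real.exp_sub, Real.exp_log (p y).2.1, Real.exp_log (sub_pos.2 (p _).2.2)]
    rfl
  rw [e, ENNReal.ofReal_mul (hP0 y).le]
  simp only [Pi.mul_apply]
  ring

end

end Pool.Agent.Hhelper98.QuasiWalk
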