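import Pool.Agent.Hhelper98.QuasiWalk.Defs

/-!
The Markov chain on the circle, its law on path space, and mixing for the time shift.
-/

open MeasureTheory ProbabilityTheory Filter
open scoped ENNReal

namespace Pool.Agent.Hhelper98.QuasiWalk

noncomputable section

/-- The transition kernel of the chain on the circle: from `y` it jumps to `y + α` with
probability `p y` and to `y - α` with probability `1 - p y`. -/
def stepKernel (α : ℝ) (p : C(UnitAddCircle, Set.Ioo (0 : ℝ) 1)) :
    Kernel UnitAddCircle UnitAddCircle where
  toFun y := ENNReal.ofReal (p y : ℝ) • Measure.dirac (y + (α : UnitAddCircle)) +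
    ENNReal.ofReal (1 - (p y : ℝ)) • Measure.dirac (y - (α : UnitAddCircle))
  measurable' := by
    have h1 : Measurable fun y => (p y : ℝ) :=
      (continuous_subtype_val.comp p.continuous).measurable
    refine Measure.measurable_of_measurable_coe _ fun s hs => ?_
    have h2 : Measurable fun y : UnitAddCircle =>
        s.indicator (1 : UnitAddCircle → ℝ≥0∞) (y + (α : UnitAddCircle)) :=
      (measurable_one.indicator hs).comp (measurable_id.add_const _)
    have h3 : Measurable fun y : UnitAddCircle =>
        s.indicator (1 : UnitAddCircle → ℝ≥0∞) (y - (α : UnitAddCircle)) :=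
      (measurable_one.indicator hs).comp (measurable_id.sub_const _)
    simp only [Measure.add_apply, Measure.smul_apply, Measure.dirac_apply' _ hs, smul_eq_mul]
    fun_prop

instance (α : ℝ) (p : C(UnitAddCircle, Set.Ioo (0 : ℝ) 1)) : IsMarkovKernel (stepKernel α p) :=
  ⟨fun y => ⟨by
    change (ENNReal.ofReal (p y : ℝ) • Measure.dirac (y + (α : UnitAddCircle)) +
      ENNReal.ofReal (1 - (p y : ℝ)) • Measure.dirac (y - (α : UnitAddCircle))) Set.univ = 1
    simp only [Measure.add_apply, Measure.smul_apply, measure_univ, smul_eq_mul, mul_one]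
    rw [← ENNReal.ofReal_add (p y).2.1.le (sub_pos.2 (p y).2.2).le]
    simp⟩⟩

/-- The law of the next position, given the positions up to time `n`. -/
def histKernel (α : ℝ) (p : C(UnitAddCircle, Set.Ioo (0 : ℝ) 1)) (n : ℕ) :
    Kernel ((i : Finset.Iic n) → UnitAddCircle) UnitAddCircle :=
  (stepKernel α p).comap (fun h => h ⟨n, Finset.mem_Iic.2 le_rfl⟩) (measurable_pi_apply _)

instance (α : ℝ) (p : C(UnitAddCircle, Set.Ioo (0 : ℝ) 1)) (n : ℕ) :
    IsMarkovKernel (histKernel α p n) := by
  unfold histKernel; infer_instance

/-- The law, on the path space `ℕ → 𝕋`, of the chain with initial law `ν` (Ionescu-Tulcea). -/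
def chainLaw (α : ℝ) (p : C(UnitAddCircle, Set.Ioo (0 : ℝ) 1)) (ν : Measure UnitAddCircle) :
    Measure (ℕ → UnitAddCircle) :=
  Kernel.trajMeasure (X := fun _ => UnitAddCircle) ν (histKernel α p)

/-- The time shift on path space. -/
def timeShift (ω : ℕ → UnitAddCircle) : ℕ → UnitAddCircle := fun n => ω (n + 1)

/-- The law `P` on path space is invariant and mixing for the time shift: it is preserved by the
shift, and `P (A ∩ θ⁻ⁿ B) → P A * P B` for all measurable sets `A`, `B` of paths. -/
def IsMixing (P : Measure (ℕ → UnitAddCircle)) : Prop :=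
  MeasurePreserving timeShift P P ∧
    ∀ A B : Set (ℕ → UnitAddCircle), MeasurableSet A → MeasurableSet B →
      Tendsto (fun n => P (A ∩ timeShift^[n] ⁻¹' B)) atTop (nhds (P A * P B))

end

end Pool.Agent.Hhelper98.QuasiWalk
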