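import Pool.Agent.Hhelper98.QuasiWalk.Limit
import Pool.Agent.Hhelper98.QuasiWalk.DefsChain

open MeasureTheory ProbabilityTheory Filter Topology
open scoped ENNReal NNReal

namespace Pool.Agent.Hhelper98.QuasiWalk

noncomputable section

/-! ## Part I: the chain on path space -/

variable (α : ℝ) (p : C(UnitAddCircle, Set.Ioo (0 : ℝ) 1))

instance (ν : Measure UnitAddCircle) [IsProbabilityMeasure ν] :
    IsProbabilityMeasure (chainLaw α p ν) := by
  unfold chainLaw; infer_instance

lemma measurable_timeShift : Measurable timeShift := by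
  unfold timeShift
  fun_prop

lemma chain_init (ν : Measure UnitAddCircle) [IsProbabilityMeasure ν] :
    (chainLaw α p ν).map (fun ω => ω 0) = ν := by
  have e1 : (fun ω : ℕ → UnitAddCircle => ω 0) =
      (fun h : (i : Finset.Iic 0) → UnitAddCircle => h ⟨0, Finset.mem_Iic.2 le_rfl⟩) ∘
        (Preorder.frestrictLe 0) := rfl
  rw [e1, ← Measure.map_map (by fun_prop) (by fun_prop)]
  unfold chainLaw Kernel.trajMeasure
  rw [Measure.map_comp _ _ (by fun_prop), Kernel.traj_map_frestrictLe_of_le le_rfl,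
    Measure.deterministic_comp_eq_map]
  have e2 : ∀ m : Measure ((i : Finset.Iic 0) → UnitAddCircle),
      m.map (Preorder.frestrictLe₂ (π := fun _ => UnitAddCircle) (le_refl 0)) = m :=
    fun m => Measure.map_id (μ := m)
  refine (congrArg (fun m : Measure ((i : Finset.Iic 0) → UnitAddCircle) =>
    m.map (fun h => h ⟨0, Finset.mem_Iic.2 le_rfl⟩)) (e2 _)).trans ?_
  beta_reduce
  rw [Measure.map_map (by fun_prop) (by fun_prop)]
  exact Measure.map_id

lemma chain_markov (ν : Measure UnitAddCircle) [IsProbabilityMeasure ν] (n : ℕ)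
    (F : ((i : Finset.Iic n) → UnitAddCircle) → ℝ≥0∞) (hF : Measurable F)
    (f : UnitAddCircle → ℝ≥0∞) (hf : Measurable f) :
    ∫⁻ ω, F (Preorder.frestrictLe n ω) * f (ω (n + 1)) ∂(chainLaw α p ν)
      = ∫⁻ ω, F (Preorder.frestrictLe n ω) * (∫⁻ y, f y ∂(stepKernel α p (ω n)))
        ∂(chainLaw α p ν) := by
  have h := Kernel.map_frestrictLe_trajMeasure_compProd_eq_map_trajMeasure
    (X := fun _ => UnitAddCircle) (μ₀ := ν) (κ := histKernel α p) (a := n)
  have h1 : ∫⁻ ω, F (Preorder.frestrictLe n ω) * f (ω (n + 1)) ∂(chainLaw α p ν)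
      = ∫⁻ q : ((i : Finset.Iic n) → UnitAddCircle) × UnitAddCircle, F q.1 * f q.2
        ∂((chainLaw α p ν).map (fun ω => (Preorder.frestrictLe n ω, ω (n + 1)))) := by
    rw [lintegral_map]
    · exact (hF.comp measurable_fst).mul (hf.comp measurable_snd)
    · fun_prop
  rw [h1]
  unfold chainLaw
  rw [← h, Measure.lintegral_compProd, lintegral_map]
  · congr 1
    ext ω
    exact lintegral_const_mul (μ := stepKernel α p (ω n)) (F (Preorder.frestrictLe n ω)) hf
  · exact Measurable.lintegral_kernel_prod_right' (κ := histKernel α p n)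
      (f := fun q : ((i : Finset.Iic n) → UnitAddCircle) × UnitAddCircle => F q.1 * f q.2)
      ((hF.comp measurable_fst).mul (hf.comp measurable_snd))
  · fun_prop
  · exact (hF.comp measurable_fst).mul (hf.comp measurable_snd)

lemma lint_kernel (y : UnitAddCircle) {f : UnitAddCircle → ℝ≥0∞} (hf : Measurable f) :
    ∫⁻ z, f z ∂(stepKernel α p y) = ENNReal.ofReal (p y : ℝ) * f (y + (α : UnitAddCircle))
      + ENNReal.ofReal (1 - (p y : ℝ)) * f (y - (α : UnitAddCircle)) := by
  change ∫⁻ z, f z ∂(ENNReal.ofReal (p y : ℝ) • Measure.dirac (y + (α : UnitAddCircle)) +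
    ENNReal.ofReal (1 - (p y : ℝ)) • Measure.dirac (y - (α : UnitAddCircle))) = _
  rw [lintegral_add_measure, lintegral_smul_measure, lintegral_smul_measure,
    lintegral_dirac' _ hf, lintegral_dirac' _ hf, smul_eq_mul, smul_eq_mul]

lemma lint_kernel_real (y : UnitAddCircle) {φ : UnitAddCircle → ℝ} (hφ : Measurable φ)
    (h0 : ∀ y, 0 ≤ φ y) :
    ∫⁻ z, ENNReal.ofReal (φ z) ∂(stepKernel α p y) = ENNReal.ofReal (transOp α p φ y) := by
  rw [lint_kernel α p y (by fun_prop)]
  unfold transOp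
  rw [ENNReal.ofReal_add (mul_nonneg (p y).2.1.le (h0 _))
    (mul_nonneg (sub_pos.2 (p y).2.2).le (h0 _)), ENNReal.ofReal_mul (p y).2.1.le,
    ENNReal.ofReal_mul (sub_pos.2 (p y).2.2).le]

/-- `F` depends measurably on the path up to time `n`. -/
def Ad (n : ℕ) (F : (ℕ → UnitAddCircle) → ℝ≥0∞) : Prop :=
  ∃ F0 : ((i : Finset.Iic n) → UnitAddCircle) → ℝ≥0∞, Measurable F0 ∧
    ∀ ω, F ω = F0 (Preorder.frestrictLe n ω)

lemma Ad.one (n : ℕ) : Ad n fun _ => 1 := ⟨fun _ => 1, measurable_const, fun _ => rfl⟩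

lemma Ad.succ {n : ℕ} {F : (ℕ → UnitAddCircle) → ℝ≥0∞} (h : Ad n F) : Ad (n + 1) F := by
  obtain ⟨F0, hF0, hF⟩ := h
  refine ⟨fun h => F0 (Preorder.frestrictLe₂ (π := fun _ => UnitAddCircle) (Nat.le_succ n) h),
    ?_, fun ω => ?_⟩
  · exact hF0.comp (Preorder.measurable_frestrictLe₂ _)
  · rw [hF]; rfl

lemma Ad.mul {n : ℕ} {F G : (ℕ → UnitAddCircle) → ℝ≥0∞} (h : Ad n F) (h' : Ad n G) :
    Ad n fun ω => F ω * G ω := by
  obtain ⟨F0, hF0, hF⟩ := h
  obtain ⟨G0, hG0, hG⟩ := h'
  exact ⟨fun h => F0 h * G0 h, hF0.mul hG0, fun ω => by simp only [hF, hG]⟩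

lemma Ad.coord (n : ℕ) {u : UnitAddCircle → ℝ≥0∞} (hu : Measurable u) : Ad n fun ω => u (ω n) :=
  ⟨fun h => u (h ⟨n, Finset.mem_Iic.2 le_rfl⟩), hu.comp (measurable_pi_apply _), fun _ => rfl⟩

lemma Ad.meas {n : ℕ} {F : (ℕ → UnitAddCircle) → ℝ≥0∞} (h : Ad n F) : Measurable F := by
  obtain ⟨F0, hF0, hF⟩ := h
  have : F = F0 ∘ (Preorder.frestrictLe n) := funext hF
  rw [this]
  exact hF0.comp (by fun_prop)

lemma markov1 (ν : Measure UnitAddCircle) [IsProbabilityMeasure ν] {n : ℕ}
    {F : (ℕ → UnitAddCircle) → ℝ≥0∞} (hF : Ad n F) {φ : UnitAddCircle → ℝ} (hφ : Measurable φ)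
    (h0 : ∀ y, 0 ≤ φ y) :
    ∫⁻ ω, F ω * ENNReal.ofReal (φ (ω (n + 1))) ∂(chainLaw α p ν)
      = ∫⁻ ω, F ω * ENNReal.ofReal (transOp α p φ (ω n)) ∂(chainLaw α p ν) := by
  obtain ⟨F0, hF0, hF⟩ := hF
  have := chain_markov α p ν n F0 hF0 (fun y => ENNReal.ofReal (φ y)) (by fun_prop)
  simp_rw [hF]
  rw [this]
  simp_rw [lint_kernel_real α p _ hφ h0]

lemma transOp_nonneg {φ : UnitAddCircle → ℝ} (h0 : ∀ y, 0 ≤ φ y) (y : UnitAddCircle) :
    0 ≤ transOp α p φ y :=
  add_nonneg (mul_nonneg (p y).2.1.le (h0 _)) (mul_nonneg (sub_pos.2 (p y).2.2).le (h0 _))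

lemma pw_nonneg {φ : UnitAddCircle → ℝ} (h0 : ∀ y, 0 ≤ φ y) (n : ℕ) (y : UnitAddCircle) :
    0 ≤ pw α p φ n y := by
  induction n generalizing y with
  | zero => exact h0 y
  | succ n ih => exact transOp_nonneg α p ih y

lemma pw_succ' (φ : UnitAddCircle → ℝ) (n : ℕ) :
    pw α p (transOp α p φ) n = pw α p φ (n + 1) := by
  induction n with
  | zero => rfl
  | succ n ih =>
    change transOp α p (pw α p (transOp α p φ) n) = transOp α p (pw α p φ (n + 1))
    rw [ih]

lemma markovn (ν : Measure UnitAddCircle) [IsProbabilityMeasure ν] {n : ℕ}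
    {F : (ℕ → UnitAddCircle) → ℝ≥0∞} (hF : Ad n F) {φ : UnitAddCircle → ℝ} (hφ : BM φ)
    (h0 : ∀ y, 0 ≤ φ y) (k : ℕ) :
    ∫⁻ ω, F ω * ENNReal.ofReal (φ (ω (n + k))) ∂(chainLaw α p ν)
      = ∫⁻ ω, F ω * ENNReal.ofReal (pw α p φ k (ω n)) ∂(chainLaw α p ν) := by
  induction k generalizing n φ F with
  | zero => rfl
  | succ k ih =>
    have e1 : n + (k + 1) = (n + 1) + k := by ring
    rw [e1, ih hF.succ hφ h0]
    exact markov1 α p ν hF (hφ.pw k).meas (pw_nonneg α p h0 k)

/-- Cylinder sets. -/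
def cyl (k : ℕ) (B : ℕ → Set UnitAddCircle) : Set (ℕ → UnitAddCircle) :=
  {ω | ∀ i, i < k → ω i ∈ B i}

lemma cyl_meas (k : ℕ) {B : ℕ → Set UnitAddCircle} (hB : ∀ i, MeasurableSet (B i)) :
    MeasurableSet (cyl k B) := by
  have : cyl k B = ⋂ i, ⋂ (_ : i < k), (fun ω : ℕ → UnitAddCircle => ω i) ⁻¹' (B i) := by
    ext ω; simp [cyl]
  rw [this]
  exact MeasurableSet.iInter fun i => MeasurableSet.iInter fun _ => (measurable_pi_apply i) (hB i)

/-- The conditional probability of a cylinder, as a function of the starting point. -/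
def cylFun (α : ℝ) (p : C(UnitAddCircle, Set.Ioo (0 : ℝ) 1)) :
    ℕ → (ℕ → Set UnitAddCircle) → UnitAddCircle → ℝ
  | 0, _ => fun _ => 1
  | k + 1, B => fun y => (B 0).indicator 1 y *
      transOp α p (cylFun α p k (fun i => B (i + 1))) y

lemma cylFun_succ (k : ℕ) (B : ℕ → Set UnitAddCircle) (y : UnitAddCircle) :
    cylFun α p (k + 1) B y = (B 0).indicator 1 y *
      transOp α p (cylFun α p k (fun i => B (i + 1))) y := rfl

lemma ind_bm {S : Set UnitAddCircle} (hS : MeasurableSet S) :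
    BM (S.indicator (1 : UnitAddCircle → ℝ)) := by
  refine ⟨measurable_one.indicator hS, 1, fun y => ?_⟩
  by_cases hy : y ∈ S
  · rw [Set.indicator_of_mem hy]; simp
  · rw [Set.indicator_of_notMem hy]; simp

lemma cylFun_bm (k : ℕ) {B : ℕ → Set UnitAddCircle} (hB : ∀ i, MeasurableSet (B i)) :
    BM (cylFun α p k B) := by
  induction k generalizing B with
  | zero => exact BM.const 1
  | succ k ih => exact (ind_bm (hB 0)).mul (ih fun i => hB (i + 1)).transOp

lemma cylFun_nonneg (k : ℕ) (B : ℕ → Set UnitAddCircle) (y : UnitAddCircle) :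
    0 ≤ cylFun α p k B y := by
  induction k generalizing B y with
  | zero => exact zero_le_one
  | succ k ih =>
    refine mul_nonneg (Set.indicator_nonneg (fun _ _ => zero_le_one) _) ?_
    exact transOp_nonneg α p (fun z => ih _ z) y

lemma shift_iter (n : ℕ) (ω : ℕ → UnitAddCircle) (i : ℕ) : timeShift^[n] ω i = ω (n + i) := by
  induction n generalizing ω with
  | zero => simp
  | succ n ih =>
    rw [Function.iterate_succ_apply, ih]
    unfold timeShift
    congr 1
    ring

/-- The probability of a shifted cylinder. -/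
lemma cyl_formula (ν : Measure UnitAddCircle) [IsProbabilityMeasure ν] (k : ℕ)
    {B : ℕ → Set UnitAddCircle} (hB : ∀ i, MeasurableSet (B i)) {n : ℕ}
    {F : (ℕ → UnitAddCircle) → ℝ≥0∞} (hF : Ad n F) :
    ∫⁻ ω, F ω * (cyl k B).indicator 1 (timeShift^[n] ω) ∂(chainLaw α p ν)
      = ∫⁻ ω, F ω * ENNReal.ofReal (cylFun α p k B (ω n)) ∂(chainLaw α p ν) := by
  induction k generalizing B n F with
  | zero =>
    refine lintegral_congr fun ω => ?_
    have : timeShift^[n] ω ∈ cyl 0 B := fun i hi => absurd hi (Nat.not_lt_zero i)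
    rw [Set.indicator_of_mem this]
    simp [cylFun]
  | succ k ih =>
    have hB0 : Measurable ((B 0).indicator (1 : UnitAddCircle → ℝ≥0∞)) :=
      measurable_one.indicator (hB 0)
    have h1 : ∀ ω, F ω * (cyl (k + 1) B).indicator (1 : (ℕ → UnitAddCircle) → ℝ≥0∞)
          (timeShift^[n] ω)
        = (F ω * (B 0).indicator 1 (ω n)) *
          (cyl k (fun i => B (i + 1))).indicator 1 (timeShift^[n + 1] ω) := by
      intro ω
      have hiff : timeShift^[n] ω ∈ cyl (k + 1) B ↔
          (ω n ∈ B 0 ∧ timeShift^[n + 1] ω ∈ cyl k (fun i => B (i + 1))) := by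
        unfold cyl
        simp only [Set.mem_ofPred_eq, shift_iter]
        constructor
        · intro h
          refine ⟨by simpa using h 0 (Nat.succ_pos k), fun i hi => ?_⟩
          have := h (i + 1) (by omega)
          have e : n + 1 + i = n + (i + 1) := by ring
          rw [e]; exact this
        · rintro ⟨h0, h⟩ i hi
          rcases i with _ | i
          · simpa using h0
          · have := h i (by omega)
            have e : n + 1 + i = n + (i + 1) := by ring
            rw [e] at this; exact this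
      by_cases ha : ω n ∈ B 0
      · by_cases hb : timeShift^[n + 1] ω ∈ cyl k (fun i => B (i + 1))
        · rw [Set.indicator_of_mem (hiff.2 ⟨ha, hb⟩), Set.indicator_of_mem ha,
            Set.indicator_of_mem hb]
          simp
        · rw [Set.indicator_of_notMem (fun h => hb (hiff.1 h).2), Set.indicator_of_notMem hb]
          simp
      · rw [Set.indicator_of_notMem (fun h => ha (hiff.1 h).1), Set.indicator_of_notMem ha]
        simp
    simp_rw [h1]
    have hF' : Ad n (fun ω => F ω * (B 0).indicator 1 (ω n)) := hF.mul (Ad.coord n hB0)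
    rw [ih (fun i => hB (i + 1)) hF'.succ,
      markov1 α p ν hF' (cylFun_bm α p k fun i => hB (i + 1)).meas (cylFun_nonneg α p k _)]
    refine lintegral_congr fun ω => ?_
    rw [mul_assoc]
    congr 1
    rw [cylFun_succ]
    by_cases ha : ω n ∈ B 0
    · rw [Set.indicator_of_mem ha, Set.indicator_of_mem ha]; simp
    · rw [Set.indicator_of_notMem ha, Set.indicator_of_notMem ha]; simp

end

end Pool.Agent.Hhelper98.QuasiWalk
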