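import Pool.Agent.Hhelper98.QuasiWalk.Approx

open MeasureTheory ProbabilityTheory Filter Topology
open scoped ENNReal NNReal

namespace Pool.Agent.Hhelper98.QuasiWalk

noncomputable section

/-! ## Part B: measures with a given cocycle over a rotation -/

/-- Birkhoff sums of `f` along the rotation by `b`. -/
def cocyc (b : UnitAddCircle) (f : UnitAddCircle → ℝ) (j : ℕ) (y : UnitAddCircle) : ℝ :=
  ∑ i ∈ Finset.range j, f (y + i • b)

lemma cocyc_succ (b : UnitAddCircle) (f : UnitAddCircle → ℝ) (j : ℕ) (y : UnitAddCircle) :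
    cocyc b f (j + 1) y = cocyc b f j (y + b) + f y := by
  unfold cocyc
  rw [Finset.sum_range_succ']
  congr 1
  · refine Finset.sum_congr rfl fun i _ => ?_
    congr 1
    rw [succ_nsmul]
    abel
  · simp

/-- `μ` is quasi-invariant with cocycle `f` under the rotation by `b`. -/
def Rel (b : UnitAddCircle) (f : UnitAddCircle → ℝ) (μ : Measure UnitAddCircle) : Prop :=
  ∀ ψ : UnitAddCircle → ℝ≥0∞, Measurable ψ →
    ∫⁻ y, ψ y ∂μ = ∫⁻ y, ψ (y + b) * ENNReal.ofReal (Real.exp (f y)) ∂μ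

lemma measurable_cocyc {b : UnitAddCircle} {f : UnitAddCircle → ℝ} (hf : Measurable f) (j : ℕ) :
    Measurable (cocyc b f j) := by
  unfold cocyc
  fun_prop

lemma Rel.iterate {b : UnitAddCircle} {f : UnitAddCircle → ℝ} (hf : Measurable f)
    {μ : Measure UnitAddCircle} (h : Rel b f μ) (j : ℕ) (ψ : UnitAddCircle → ℝ≥0∞)
    (hψ : Measurable ψ) :
    ∫⁻ y, ψ y ∂μ = ∫⁻ y, ψ (y + j • b) * ENNReal.ofReal (Real.exp (cocyc b f j y)) ∂μ := by
  induction j with
  | zero => simp [cocyc]
  | succ j ih =>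
    rw [ih, h (fun y => ψ (y + j • b) * ENNReal.ofReal (Real.exp (cocyc b f j y)))]
    · refine lintegral_congr fun y => ?_
      have e : y + (j + 1) • b = y + b + j • b := by rw [succ_nsmul]; abel
      rw [cocyc_succ, Real.exp_add, ENNReal.ofReal_mul (Real.exp_nonneg _), ← mul_assoc, e]
    · have := measurable_cocyc (b := b) hf j
      fun_prop

/-- A bound for the variation of the Birkhoff sums on a ball. -/
lemma cocyc_close {b : UnitAddCircle} {f : UnitAddCircle → ℝ} {K : ℝ≥0} (hf : LipschitzWith K f)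
    {N : ℕ} (hN : 0 < N) {j : ℕ} (hj : j < N) {y c : UnitAddCircle} (hy : dist y c ≤ 2 / N) :
    |cocyc b f j y - cocyc b f j c| ≤ 2 * K := by
  unfold cocyc
  rw [← Finset.sum_sub_distrib]
  refine (Finset.abs_sum_le_sum_abs _ _).trans ?_
  have h1 : ∀ i ∈ Finset.range j, |f (y + i • b) - f (c + i • b)| ≤ K * (2 / N) := by
    intro i _
    have := hf.dist_le_mul (y + i • b) (c + i • b)
    rw [Real.dist_eq, dist_add_right] at this
    refine this.trans ?_
    gcongr
  refine (Finset.sum_le_sum h1).trans ?_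
  rw [Finset.sum_const, Finset.card_range, nsmul_eq_mul]
  have hN' : (0 : ℝ) < N := Nat.cast_pos.2 hN
  have hj' : (j : ℝ) ≤ N := by exact_mod_cast hj.le
  calc (j : ℝ) * (K * (2 / N)) ≤ N * (K * (2 / N)) := by gcongr
    _ = 2 * K := by field_simp

lemma measurable_of_lip {f : UnitAddCircle → ℝ} {K : ℝ≥0} (hf : LipschitzWith K f) :
    Measurable f := hf.continuous.measurable

lemma ball_eq {b : UnitAddCircle} {f : UnitAddCircle → ℝ} (hf : Measurable f)
    {μ : Measure UnitAddCircle} (h : Rel b f μ) (j : ℕ) (c : UnitAddCircle) (r : ℝ) :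
    μ (Metric.closedBall (c + j • b) r)
      = ∫⁻ y in Metric.closedBall c r, ENNReal.ofReal (Real.exp (cocyc b f j y)) ∂μ := by
  rw [← lintegral_indicator_one measurableSet_closedBall,
    ← lintegral_indicator measurableSet_closedBall,
    h.iterate hf j _ (measurable_one.indicator measurableSet_closedBall)]
  refine lintegral_congr fun y => ?_
  have h1 : (y + j • b ∈ Metric.closedBall (c + j • b) r) ↔ y ∈ Metric.closedBall c r := by
    rw [Metric.mem_closedBall, Metric.mem_closedBall, dist_add_right]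
  by_cases hy : y ∈ Metric.closedBall c r
  · rw [Set.indicator_of_mem (h1.2 hy), Set.indicator_of_mem hy]; simp
  · rw [Set.indicator_of_notMem (fun h' => hy (h1.1 h')), Set.indicator_of_notMem hy]; simp

lemma ball_upper {b : UnitAddCircle} {f : UnitAddCircle → ℝ} {K : ℝ≥0} (hf : LipschitzWith K f)
    {μ : Measure UnitAddCircle} (h : Rel b f μ)
    {N : ℕ} (hN : 0 < N) {j : ℕ} (hj : j < N) (c : UnitAddCircle) :
    μ (Metric.closedBall (c + j • b) (2 / N)) ≤
      ENNReal.ofReal (Real.exp (2 * K)) * (ENNReal.ofReal (Real.exp (cocyc b f j c))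
        * μ (Metric.closedBall c (2 / N))) := by
  rw [ball_eq (measurable_of_lip hf) h]
  calc ∫⁻ y in Metric.closedBall c (2 / N), ENNReal.ofReal (Real.exp (cocyc b f j y)) ∂μ
      ≤ ∫⁻ y in Metric.closedBall c (2 / N), ENNReal.ofReal (Real.exp (2 * K)) *
        ENNReal.ofReal (Real.exp (cocyc b f j c)) ∂μ := by
        refine setLIntegral_mono (by fun_prop) fun y hy => ?_
        rw [← ENNReal.ofReal_mul (Real.exp_nonneg _), ← Real.exp_add]
        have := abs_le.1 (cocyc_close (b := b) hf hN hj (Metric.mem_closedBall.1 hy))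
        gcongr
        linarith [this.2]
    _ = _ := by rw [setLIntegral_const, mul_assoc]

lemma ball_lower {b : UnitAddCircle} {f : UnitAddCircle → ℝ} {K : ℝ≥0} (hf : LipschitzWith K f)
    {μ : Measure UnitAddCircle} (h : Rel b f μ)
    {N : ℕ} (hN : 0 < N) {j : ℕ} (hj : j < N) (c : UnitAddCircle) :
    ENNReal.ofReal (Real.exp (cocyc b f j c)) * μ (Metric.closedBall c (2 / N)) ≤
      ENNReal.ofReal (Real.exp (2 * K)) * μ (Metric.closedBall (c + j • b) (2 / N)) := by
  rw [ball_eq (measurable_of_lip hf) h, ← setLIntegral_const, ← lintegral_const_mul']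
  swap; · simp
  refine setLIntegral_mono' measurableSet_closedBall fun y hy => ?_
  rw [← ENNReal.ofReal_mul (Real.exp_nonneg _), ← Real.exp_add]
  have := abs_le.1 (cocyc_close (b := b) hf hN hj (Metric.mem_closedBall.1 hy))
  gcongr
  linarith [this.1]

/-- Total mass is bounded by the sum over the balls. -/
lemma mass_le {b : UnitAddCircle} {N : ℕ} (hg : Good b N) (μ : Measure UnitAddCircle)
    (c : UnitAddCircle) :
    μ Set.univ ≤ ∑ j ∈ Finset.range N, μ (Metric.closedBall (c + j • b) (2 / N)) := by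
  refine (measure_mono ?_).trans (measure_biUnion_finset_le _ _)
  intro x _
  obtain ⟨j, hj, hd⟩ := hg.cover c x
  simp only [Set.mem_iUnion]
  exact ⟨j, Finset.mem_range.2 hj, hd⟩

lemma le_mass {b : UnitAddCircle} {N : ℕ} (hg : Good b N) (μ : Measure UnitAddCircle)
    (c : UnitAddCircle) (J : Finset ℕ) (hJ : J ⊆ Finset.range N) (G : Set UnitAddCircle)
    (hG : ∀ j ∈ J, Metric.closedBall (c + j • b) (2 / N) ⊆ G) :
    ∑ j ∈ J, μ (Metric.closedBall (c + j • b) (2 / N)) ≤ 13 * μ G := by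
  have h1 : ∀ j ∈ J, μ (Metric.closedBall (c + j • b) (2 / N))
      = ∫⁻ x in G, (Metric.closedBall (c + j • b) (2 / N)).indicator 1 x ∂μ := by
    intro j hj
    rw [lintegral_indicator_one measurableSet_closedBall,
      Measure.restrict_apply measurableSet_closedBall, Set.inter_eq_self_of_subset_left (hG j hj)]
  rw [Finset.sum_congr rfl h1, ← lintegral_finsetSum _ (fun j _ =>
    measurable_one.indicator measurableSet_closedBall)]
  rw [← setLIntegral_const]
  refine lintegral_mono fun x => ?_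
  have h2 : ∀ j ∈ J, (Metric.closedBall (c + j • b) (2 / N)).indicator (1 : UnitAddCircle → ℝ≥0∞) x
      = if dist x (c + j • b) ≤ 2 / N then 1 else 0 := by
    intro j _
    by_cases hx : dist x (c + j • b) ≤ 2 / N
    · rw [if_pos hx, Set.indicator_of_mem (Metric.mem_closedBall.2 hx)]; rfl
    · rw [if_neg hx, Set.indicator_of_notMem (fun h' => hx (Metric.mem_closedBall.1 h'))]
  rw [Finset.sum_congr rfl h2, Finset.sum_boole]
  have h3 : (J.filter (fun j => dist x (c + j • b) ≤ 2 / N)).card ≤ 13 :=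
    (Finset.card_le_card (Finset.filter_subset_filter _ hJ)).trans (hg.mult c x)
  calc ((J.filter (fun j => dist x (c + j • b) ≤ 2 / N)).card : ℝ≥0∞) ≤ ((13 : ℕ) : ℝ≥0∞) :=
        Nat.cast_le.2 h3
    _ = 13 := by norm_num

/-- The constant in the comparison of two measures. -/
def cmpC (K : ℝ≥0) : ℝ≥0∞ := 13 * (ENNReal.ofReal (Real.exp (2 * K)) * ENNReal.ofReal (Real.exp (2 * K)))

lemma cmpC_ne_top (K : ℝ≥0) : cmpC K ≠ ∞ := by
  unfold cmpC
  exact ENNReal.mul_ne_top (by norm_num) (ENNReal.mul_ne_top ENNReal.ofReal_ne_top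
    ENNReal.ofReal_ne_top)

lemma ball_compare {b : UnitAddCircle} {f : UnitAddCircle → ℝ} {K : ℝ≥0} (hf : LipschitzWith K f)
    {μ₁ μ₂ : Measure UnitAddCircle} (h₁ : Rel b f μ₁) (h₂ : Rel b f μ₂)
    {N : ℕ} (hg : Good b N) (c : UnitAddCircle) :
    μ₂ Set.univ * μ₁ (Metric.closedBall c (2 / N)) ≤
      (cmpC K * μ₁ Set.univ) * μ₂ (Metric.closedBall c (2 / N)) := by
  set S : ℝ≥0∞ := ∑ j ∈ Finset.range N, ENNReal.ofReal (Real.exp (cocyc b f j c)) with hS
  set E : ℝ≥0∞ := ENNReal.ofReal (Real.exp (2 * K)) with hE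
  have a1 : S * μ₁ (Metric.closedBall c (2 / N)) ≤ E * (13 * μ₁ Set.univ) := by
    rw [hS, Finset.sum_mul]
    refine (Finset.sum_le_sum fun j hj => ball_lower hf h₁ hg.pos (Finset.mem_range.1 hj) c).trans ?_
    rw [← Finset.mul_sum]
    gcongr
    exact le_mass hg μ₁ c _ subset_rfl _ (fun _ _ => Set.subset_univ _)
  have a2 : μ₂ Set.univ ≤ E * (S * μ₂ (Metric.closedBall c (2 / N))) := by
    refine (mass_le hg μ₂ c).trans ?_
    refine (Finset.sum_le_sum fun j hj => ball_upper hf h₂ hg.pos (Finset.mem_range.1 hj) c).trans ?_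
    rw [← Finset.mul_sum, hS, Finset.sum_mul]
  calc μ₂ Set.univ * μ₁ (Metric.closedBall c (2 / N))
      ≤ (E * (S * μ₂ (Metric.closedBall c (2 / N)))) * μ₁ (Metric.closedBall c (2 / N)) := by gcongr
    _ = E * μ₂ (Metric.closedBall c (2 / N)) * (S * μ₁ (Metric.closedBall c (2 / N))) := by ring
    _ ≤ E * μ₂ (Metric.closedBall c (2 / N)) * (E * (13 * μ₁ Set.univ)) := by gcongr
    _ = _ := by rw [cmpC]; ring

lemma le_of_forall_isClosed {μ ν : Measure UnitAddCircle} [IsFiniteMeasure μ]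
    (h : ∀ F, IsClosed F → μ F ≤ ν F) : μ ≤ ν := by
  rw [Measure.le_iff]
  intro A hA
  by_contra hlt
  push Not at hlt
  obtain ⟨F, hFA, hF, hlt'⟩ := hA.exists_lt_isClosed_of_ne_top (measure_ne_top μ A) hlt
  exact absurd ((h F hF).trans (measure_mono hFA)) (not_le.2 hlt')

/-- Two finite measures with the same Lipschitz cocycle over an irrational rotation are
comparable. -/
theorem compare {β : ℝ} (hβ : Irrational β) {f : UnitAddCircle → ℝ} {K : ℝ≥0}
    (hf : LipschitzWith K f) {μ₁ μ₂ : Measure UnitAddCircle} [IsFiniteMeasure μ₁]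
    [IsFiniteMeasure μ₂]
    (h₁ : Rel (β : UnitAddCircle) f μ₁) (h₂ : Rel (β : UnitAddCircle) f μ₂) :
    μ₂ Set.univ • μ₁ ≤ (13 * (cmpC K * μ₁ Set.univ)) • μ₂ := by
  have : IsFiniteMeasure (μ₂ Set.univ • μ₁) := by
    constructor
    rw [Measure.smul_apply, smul_eq_mul]
    exact ENNReal.mul_lt_top (measure_lt_top _ _) (measure_lt_top _ _)
  refine le_of_forall_isClosed fun F hF => ?_
  rw [Measure.smul_apply, Measure.smul_apply, smul_eq_mul, smul_eq_mul]
  have key : ∀ M : ℕ, ∃ N : ℕ, M < N ∧ μ₂ Set.univ * μ₁ F ≤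
      (13 * (cmpC K * μ₁ Set.univ)) * μ₂ (Metric.cthickening (4 / N) F) := by
    intro M
    obtain ⟨N, hMN, hg⟩ := exists_good hβ M
    refine ⟨N, hMN, ?_⟩
    classical
    set J := (Finset.range N).filter (fun j =>
      (Metric.closedBall ((0 : UnitAddCircle) + j • (β : UnitAddCircle)) (2 / N) ∩ F).Nonempty)
      with hJ
    have hN : (0 : ℝ) < N := Nat.cast_pos.2 hg.pos
    have c1 : μ₁ F ≤ ∑ j ∈ J, μ₁ (Metric.closedBall ((0 : UnitAddCircle)
        + j • (β : UnitAddCircle)) (2 / N)) := by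
      refine (measure_mono ?_).trans (measure_biUnion_finset_le _ _)
      intro x hx
      obtain ⟨j, hj, hd⟩ := hg.cover 0 x
      simp only [Set.mem_iUnion]
      refine ⟨j, ?_, hd⟩
      rw [hJ, Finset.mem_filter]
      exact ⟨Finset.mem_range.2 hj, x, hd, hx⟩
    have c2 : ∑ j ∈ J, μ₂ (Metric.closedBall ((0 : UnitAddCircle)
        + j • (β : UnitAddCircle)) (2 / N)) ≤ 13 * μ₂ (Metric.cthickening (4 / N) F) := by
      refine le_mass hg μ₂ 0 J (Finset.filter_subset _ _) _ ?_
      intro j hj x hx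
      obtain ⟨z, hz1, hz2⟩ := (Finset.mem_filter.1 hj).2
      refine Metric.mem_cthickening_of_dist_le x z _ _ hz2 ?_
      rw [Metric.mem_closedBall] at hx hz1
      calc dist x z ≤ _ := dist_triangle_right _ _ _
        _ ≤ 2 / N + 2 / N := add_le_add hx hz1
        _ = 4 / N := by ring
    calc μ₂ Set.univ * μ₁ F ≤ μ₂ Set.univ * ∑ j ∈ J, μ₁ (Metric.closedBall ((0 : UnitAddCircle)
        + j • (β : UnitAddCircle)) (2 / N)) := by gcongr
      _ = ∑ j ∈ J, μ₂ Set.univ * μ₁ (Metric.closedBall ((0 : UnitAddCircle)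
        + j • (β : UnitAddCircle)) (2 / N)) := by rw [Finset.mul_sum]
      _ ≤ ∑ j ∈ J, (cmpC K * μ₁ Set.univ) * μ₂ (Metric.closedBall ((0 : UnitAddCircle)
        + j • (β : UnitAddCircle)) (2 / N)) :=
          Finset.sum_le_sum fun j _ => ball_compare hf h₁ h₂ hg _
      _ = (cmpC K * μ₁ Set.univ) * ∑ j ∈ J, μ₂ (Metric.closedBall ((0 : UnitAddCircle)
        + j • (β : UnitAddCircle)) (2 / N)) := by rw [Finset.mul_sum]
      _ ≤ (cmpC K * μ₁ Set.univ) * (13 * μ₂ (Metric.cthickening (4 / N) F)) := by gcongr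
      _ = _ := by ring
  choose Nf hNf1 hNf2 using key
  have hlim : Tendsto (fun M : ℕ => (4 : ℝ) / Nf M) atTop (𝓝 0) := by
    have h1 : Tendsto (fun M : ℕ => (Nf M : ℝ)) atTop atTop := by
      refine tendsto_natCast_atTop_atTop.comp ?_
      exact tendsto_atTop_mono (fun M => (hNf1 M).le) tendsto_id
    exact h1.const_div_atTop 4
  have hlim2 := (tendsto_measure_cthickening_of_isClosed (μ := μ₂)
    ⟨1, one_pos, measure_ne_top _ _⟩ hF).comp hlim
  have hlim3 : Tendsto (fun M => (13 * (cmpC K * μ₁ Set.univ)) *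
      μ₂ (Metric.cthickening (4 / Nf M) F)) atTop
      (𝓝 ((13 * (cmpC K * μ₁ Set.univ)) * μ₂ F)) := by
    refine ENNReal.Tendsto.const_mul hlim2 (Or.inr ?_)
    exact ENNReal.mul_ne_top (by norm_num) (ENNReal.mul_ne_top (cmpC_ne_top K)
      (measure_ne_top _ _))
  exact ge_of_tendsto' hlim3 hNf2

end

end Pool.Agent.Hhelper98.QuasiWalk
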