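import Pool.Agent.Hhelper98.QuasiWalk.Compare

open MeasureTheory ProbabilityTheory Filter Topology
open scoped ENNReal NNReal

namespace Pool.Agent.Hhelper98.QuasiWalk

noncomputable section

/-! ## Part C: ergodicity and uniqueness -/

lemma Rel.restrict {b : UnitAddCircle} {f : UnitAddCircle → ℝ} {μ : Measure UnitAddCircle}
    (h : Rel b f μ) {E : Set UnitAddCircle} (hE : MeasurableSet E)
    (hinv : ∀ᵐ y ∂μ, (y + b ∈ E ↔ y ∈ E)) : Rel b f (μ.restrict E) := by
  intro ψ hψ
  rw [← lintegral_indicator hE, ← lintegral_indicator hE, h _ (hψ.indicator hE)]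
  refine lintegral_congr_ae ?_
  filter_upwards [hinv] with y hy
  by_cases hyE : y ∈ E
  · rw [Set.indicator_of_mem (hy.2 hyE), Set.indicator_of_mem hyE]
  · rw [Set.indicator_of_notMem (fun h' => hyE (hy.1 h')), Set.indicator_of_notMem hyE, zero_mul]

lemma zero_one {β : ℝ} (hβ : Irrational β) {f : UnitAddCircle → ℝ} {K : ℝ≥0}
    (hf : LipschitzWith K f) {ν : Measure UnitAddCircle} [IsFiniteMeasure ν]
    (h : Rel (β : UnitAddCircle) f ν) {E : Set UnitAddCircle} (hE : MeasurableSet E)
    (hinv : ∀ᵐ y ∂ν, (y + (β : UnitAddCircle) ∈ E ↔ y ∈ E)) : ν E = 0 ∨ ν Eᶜ = 0 := by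
  have h1 := h.restrict hE hinv
  have h2 := h.restrict hE.compl (by
    filter_upwards [hinv] with y hy
    simp only [Set.mem_compl_iff, hy])
  have h3 := compare hβ hf h1 h2
  have h4 := (Measure.le_iff.1 h3) E hE
  rw [Measure.smul_apply, Measure.smul_apply, Measure.restrict_apply hE,
    Measure.restrict_apply hE, Measure.restrict_apply_univ, Measure.restrict_apply_univ,
    Set.inter_self, Set.inter_compl_self, measure_empty, smul_zero, smul_eq_mul] at h4
  rcases mul_eq_zero.1 (nonpos_iff_eq_zero.1 h4) with h5 | h5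
  · exact Or.inr h5
  · exact Or.inl h5

lemma ae_const {β : ℝ} (hβ : Irrational β) {f : UnitAddCircle → ℝ} {K : ℝ≥0}
    (hf : LipschitzWith K f) {ν : Measure UnitAddCircle} [IsFiniteMeasure ν]
    (h : Rel (β : UnitAddCircle) f ν)
    {X : Type} [MeasurableSpace X] [Nonempty X] [MeasurableSpace.CountablySeparated X]
    {g : UnitAddCircle → X} (hg : Measurable g)
    (hinv : ∀ᵐ y ∂ν, g (y + (β : UnitAddCircle)) = g y) : ∃ c, ∀ᵐ y ∂ν, g y = c := by
  have := Filter.exists_eventuallyEq_const_of_forall_separating (l := ae ν) (f := g)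
    MeasurableSet (fun U hU => by
      rcases zero_one hβ hf h (hg hU) (by
        filter_upwards [hinv] with y hy
        simp only [Set.mem_preimage, hy]) with h1 | h1
      · right
        rw [ae_iff]
        have e : {a | ¬ g a ∉ U} = g ⁻¹' U := by ext a; simp
        rw [e]
        exact h1
      · left
        rw [ae_iff]
        exact h1)
  obtain ⟨c, hc⟩ := this
  exact ⟨c, hc⟩

/-- Uniqueness of the probability measure with a given Lipschitz cocycle over an irrational
rotation. -/
theorem rel_unique {β : ℝ} (hβ : Irrational β) {f : UnitAddCircle → ℝ} {K : ℝ≥0}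
    (hf : LipschitzWith K f) {μ ν : Measure UnitAddCircle} [IsProbabilityMeasure μ]
    [IsProbabilityMeasure ν]
    (hμ : Rel (β : UnitAddCircle) f μ) (hν : Rel (β : UnitAddCircle) f ν) : μ = ν := by
  have hac : μ ≪ ν := by
    have h1 := compare hβ hf hμ hν
    rw [measure_univ, measure_univ, one_smul] at h1
    exact (Measure.absolutelyContinuous_of_le h1).trans
      (Measure.smul_absolutelyContinuous)
  have hld : μ.HaveLebesgueDecomposition ν :=
    Measure.haveLebesgueDecomposition_of_sigmaFinite μ ν
  set h := μ.rnDeriv ν with hh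
  have hhm : Measurable h := Measure.measurable_rnDeriv _ _
  have hwd : ν.withDensity h = μ := Measure.withDensity_rnDeriv_eq _ _ hac
  have hfm : Measurable f := measurable_of_lip hf
  have hexp : Measurable fun y => ENNReal.ofReal (Real.exp (f y)) := by fun_prop
  have hinv : ∀ᵐ y ∂ν, h (y + (β : UnitAddCircle)) = h y := by
    have h1 : (fun y => h (y + (β : UnitAddCircle)) * ENNReal.ofReal (Real.exp (f y))) =ᵐ[ν]
        (fun y => h y * ENNReal.ofReal (Real.exp (f y))) := by
      refine ae_eq_of_forall_setLIntegral_eq_of_sigmaFinite (by fun_prop) (by fun_prop) ?_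
      intro s hs _
      set ψ : UnitAddCircle → ℝ≥0∞ := fun y => s.indicator 1 (y - (β : UnitAddCircle)) with hψ
      have hψm : Measurable ψ :=
        (measurable_one.indicator hs).comp (measurable_id.sub_const _)
      have hψb : ∀ y, ψ (y + (β : UnitAddCircle)) = s.indicator 1 y := by
        intro y; rw [hψ]; simp
      have e1 := hμ ψ hψm
      rw [← hwd, lintegral_withDensity_eq_lintegral_mul _ hhm hψm,
        lintegral_withDensity_eq_lintegral_mul _ hhm (by fun_prop)] at e1
      rw [hν (h * ψ) (hhm.mul hψm)] at e1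
      rw [← lintegral_indicator hs, ← lintegral_indicator hs]
      have e2 : ∀ y, s.indicator (fun y => h (y + (β : UnitAddCircle))
          * ENNReal.ofReal (Real.exp (f y))) y
          = (h * ψ) (y + (β : UnitAddCircle)) * ENNReal.ofReal (Real.exp (f y)) := by
        intro y
        rw [Pi.mul_apply, hψb]
        by_cases hy : y ∈ s
        · rw [Set.indicator_of_mem hy, Set.indicator_of_mem hy]; simp
        · rw [Set.indicator_of_notMem hy, Set.indicator_of_notMem hy]; simp
      have e3 : ∀ y, s.indicator (fun y => h y * ENNReal.ofReal (Real.exp (f y))) y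
          = (h * fun y => ψ (y + (β : UnitAddCircle)) * ENNReal.ofReal (Real.exp (f y))) y := by
        intro y
        rw [Pi.mul_apply, hψb]
        by_cases hy : y ∈ s
        · rw [Set.indicator_of_mem hy, Set.indicator_of_mem hy]; simp
        · rw [Set.indicator_of_notMem hy, Set.indicator_of_notMem hy]; simp
      rw [lintegral_congr e2, lintegral_congr e3, e1]
    filter_upwards [h1] with y hy
    have h2 : ENNReal.ofReal (Real.exp (f y)) ≠ 0 := by
      rw [ne_eq, ENNReal.ofReal_eq_zero, not_le]; exact Real.exp_pos _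
    exact (ENNReal.mul_left_inj h2 ENNReal.ofReal_ne_top).1 hy
  obtain ⟨c, hc⟩ := ae_const hβ hf hν hhm hinv
  have h3 : μ = c • ν := by
    rw [← hwd]
    rw [withDensity_congr_ae (g := fun _ => c) hc, withDensity_const]
  have h4 : c = 1 := by
    have := congrArg (fun m => m Set.univ) h3
    simpa using this.symm
  rw [h3, h4, one_smul]

end

end Pool.Agent.Hhelper98.QuasiWalk
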