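import Pool.Agent.Hhelper98.QuasiWalk.Balance

open MeasureTheory ProbabilityTheory Filter Topology
open scoped ENNReal NNReal

namespace Pool.Agent.Hhelper98.QuasiWalk

noncomputable section

/-! ## Part F: regularity of the cocycle, existence of a stationary measure -/

lemma exists_lift (z y : UnitAddCircle) :
    ∃ x ∈ Set.Icc (0 : ℝ) 1, ∃ t : ℝ, |t| = dist y z ∧ |t| ≤ 1 ∧ (x : UnitAddCircle) = z ∧
      ((x + t : ℝ) : UnitAddCircle) = y := by
  obtain ⟨w, hw⟩ := QuotientAddGroup.mk_surjective z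
  obtain ⟨w', hw'⟩ := QuotientAddGroup.mk_surjective (y - z)
  change (w : UnitAddCircle) = z at hw
  change (w' : UnitAddCircle) = y - z at hw'
  have hint : ∀ (a : ℝ) (n : ℤ), ((a - n : ℝ) : UnitAddCircle) = (a : UnitAddCircle) := by
    intro a n
    rw [AddCircle.coe_sub, sub_eq_self]
    rw [AddCircle.coe_eq_zero_iff]
    exact ⟨n, by simp⟩
  refine ⟨Int.fract w, ⟨Int.fract_nonneg w, (Int.fract_lt_one w).le⟩, w' - round w', ?_, ?_, ?_, ?_⟩
  · rw [dist_eq_norm, ← hw', UnitAddCircle.norm_eq]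
  · exact (abs_sub_round w').trans (by norm_num)
  · rw [← hw]; exact hint w ⌊w⌋
  · rw [AddCircle.coe_add, hint w' (round w'), hw']
    have : ((Int.fract w : ℝ) : UnitAddCircle) = z := by rw [← hw]; exact hint w ⌊w⌋
    rw [this]
    abel

/-- A function on the circle with `C^1` lift is Lipschitz. -/
lemma lipschitz_of_contDiff {g : UnitAddCircle → ℝ}
    (hg : ContDiff ℝ 1 fun x : ℝ => g (x : UnitAddCircle)) : ∃ K : ℝ≥0, LipschitzWith K g := by
  set G : ℝ → ℝ := fun x => g (x : UnitAddCircle) with hG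
  have hd : Continuous (deriv G) := hg.continuous_deriv le_rfl
  have hdiff : Differentiable ℝ G := hg.differentiable (by norm_num)
  obtain ⟨C, hC⟩ := (isCompact_Icc (a := (-1 : ℝ)) (b := 2)).exists_bound_of_continuousOn
    hd.continuousOn
  have hC0 : 0 ≤ C := (norm_nonneg _).trans (hC 0 (by constructor <;> norm_num))
  refine ⟨⟨C, hC0⟩, LipschitzWith.of_dist_le_mul fun y z => ?_⟩
  obtain ⟨x, hx, t, ht, ht1, hxz, hxt⟩ := exists_lift z y
  have ht2 := abs_le.1 ht1
  have h1 := (convex_Icc (-1 : ℝ) 2).norm_image_sub_le_of_norm_deriv_le (f := G) (C := C)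
    (x := x) (y := x + t) (fun u _ => hdiff u) hC
    ⟨by linarith [hx.1], by linarith [hx.2]⟩ ⟨by linarith [hx.1], by linarith [hx.2]⟩
  rw [dist_eq_norm, ← ht, ← hxt, ← hxz]
  change _ ≤ C * |t|
  simpa [hG] using h1

lemma coc_lipschitz (α : ℝ) {p : C(UnitAddCircle, Set.Ioo (0 : ℝ) 1)}
    (hp : ContDiff ℝ 1 fun x : ℝ => ((p (x : UnitAddCircle) : Set.Ioo (0 : ℝ) 1) : ℝ)) :
    ∃ K : ℝ≥0, LipschitzWith K (coc α p) := by
  apply lipschitz_of_contDiff
  unfold coc
  have h1 : ContDiff ℝ 1 fun x : ℝ => ((p ((x : UnitAddCircle) + (α : UnitAddCircle)) :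
      Set.Ioo (0 : ℝ) 1) : ℝ) := by
    have := hp.comp (contDiff_id.add (contDiff_const (c := α)))
    exact this
  refine ContDiff.sub ?_ ?_
  · exact hp.log fun x => (p _).2.1.ne'
  · exact (contDiff_const.sub h1).log fun x => (sub_pos.2 (p _).2.2).ne'

/-- Two stationary measures coincide. -/
theorem stationary_unique {α : ℝ} (hα : Irrational α) {p : C(UnitAddCircle, Set.Ioo (0 : ℝ) 1)}
    (hp : ContDiff ℝ 1 fun x : ℝ => ((p (x : UnitAddCircle) : Set.Ioo (0 : ℝ) 1) : ℝ))
    (hsym : IsSymmetric p) {μ ν : Measure UnitAddCircle} (hμ : IsStationary α p μ)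
    (hν : IsStationary α p ν) : μ = ν := by
  obtain ⟨K, hK⟩ := coc_lipschitz α hp
  have i1 := hμ.1
  have i2 := hν.1
  exact rel_unique hα hK (rel_of_balance (balance hα hsym hμ)) (rel_of_balance (balance hα hsym hν))

section exist

variable (α : ℝ) (p : C(UnitAddCircle, Set.Ioo (0 : ℝ) 1))

lemma contP : Continuous fun y => (p y : ℝ) := continuous_subtype_val.comp p.continuous

lemma contQ : Continuous fun y => 1 - (p y : ℝ) := continuous_const.sub (contP p)

/-- The law after one step. -/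
def stepMeas (ν : Measure UnitAddCircle) : Measure UnitAddCircle :=
  (ν.withDensity fun y => ENNReal.ofReal (p y : ℝ)).map (fun y => y + (α : UnitAddCircle)) +
  (ν.withDensity fun y => ENNReal.ofReal (1 - (p y : ℝ))).map (fun y => y - (α : UnitAddCircle))

lemma lint_step (ν : Measure UnitAddCircle) {ψ : UnitAddCircle → ℝ≥0∞} (hψ : Measurable ψ) :
    ∫⁻ y, ψ y ∂(stepMeas α p ν) = ∫⁻ y, (ENNReal.ofReal (p y : ℝ) * ψ (y + (α : UnitAddCircle))
      + ENNReal.ofReal (1 - (p y : ℝ)) * ψ (y - (α : UnitAddCircle))) ∂ν := by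
  have hm := (contP p).measurable
  have hm2 := (contQ p).measurable
  have h1 : Measurable fun y => ψ (y + (α : UnitAddCircle)) := hψ.comp (measurable_id.add_const _)
  have h2 : Measurable fun y => ψ (y - (α : UnitAddCircle)) := hψ.comp (measurable_id.sub_const _)
  have h3 : Measurable fun y => ENNReal.ofReal (p y : ℝ) := by fun_prop
  have h4 : Measurable fun y => ENNReal.ofReal (1 - (p y : ℝ)) := by fun_prop
  unfold stepMeas
  rw [lintegral_add_measure, lintegral_map hψ (by fun_prop), lintegral_map hψ (by fun_prop),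
    lintegral_withDensity_eq_lintegral_mul _ h3 h1,
    lintegral_withDensity_eq_lintegral_mul _ h4 h2, ← lintegral_add_left (h3.mul h1)]
  rfl

instance (ν : Measure UnitAddCircle) [IsProbabilityMeasure ν] :
    IsProbabilityMeasure (stepMeas α p ν) := by
  constructor
  have := lint_step α p ν (ψ := 1) measurable_one
  simp only [Pi.one_apply, lintegral_one, mul_one] at this
  rw [this]
  have h : ∀ y, ENNReal.ofReal (p y : ℝ) + ENNReal.ofReal (1 - (p y : ℝ)) = 1 := by
    intro y
    rw [← ENNReal.ofReal_add (p y).2.1.le (sub_pos.2 (p y).2.2).le]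
    simp
  simp [h]

lemma int_wd (ν : Measure UnitAddCircle) {A : UnitAddCircle → ℝ} (hA : Continuous A)
    (hA0 : ∀ y, 0 < A y) (φ : UnitAddCircle → ℝ) :
    ∫ y, φ y ∂(ν.withDensity fun y => ENNReal.ofReal (A y)) = ∫ y, A y * φ y ∂ν := by
  have := hA.measurable
  rw [integral_withDensity_eq_integral_toReal_smul (by fun_prop)
    (Eventually.of_forall fun y => ENNReal.ofReal_lt_top)]
  refine integral_congr_ae (Eventually.of_forall fun y => ?_)
  beta_reduce
  rw [ENNReal.toReal_ofReal (hA0 y).le, smul_eq_mul]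

lemma int_step (ν : Measure UnitAddCircle) [IsFiniteMeasure ν] (φ : C(UnitAddCircle, ℝ)) :
    ∫ y, φ y ∂(stepMeas α p ν) = ∫ y, transOp α p φ y ∂ν := by
  have hφ := φ.continuous
  have fP : IsFiniteMeasure (ν.withDensity fun y => ENNReal.ofReal (p y : ℝ)) :=
    isFiniteMeasure_withDensity_ofReal (cont_int ν (contP p)).2
  have fQ : IsFiniteMeasure (ν.withDensity fun y => ENNReal.ofReal (1 - (p y : ℝ))) :=
    isFiniteMeasure_withDensity_ofReal (cont_int ν (contQ p)).2
  unfold stepMeas transOp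
  have c1 : Continuous fun y => φ (y + (α : UnitAddCircle)) := hφ.comp (continuous_add_const _)
  have c2 : Continuous fun y => φ (y - (α : UnitAddCircle)) :=
    hφ.comp (continuous_id.sub continuous_const)
  rw [integral_add_measure (cont_int _ hφ) (cont_int _ hφ),
    integral_map (by fun_prop) hφ.aestronglyMeasurable,
    integral_map (by fun_prop) hφ.aestronglyMeasurable,
    int_wd ν (contP p) (fun y => (p y).2.1), int_wd ν (contQ p) (fun y => sub_pos.2 (p y).2.2)]
  have i1 : Integrable (fun y => (p y : ℝ) * φ (y + (α : UnitAddCircle))) ν :=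
    cont_int _ ((contP p).mul c1)
  have i2 : Integrable (fun y => (1 - (p y : ℝ)) * φ (y - (α : UnitAddCircle))) ν :=
    cont_int _ ((contQ p).mul c2)
  rw [integral_add i1 i2]

lemma stepMeas_eq {ν : Measure UnitAddCircle} (h : IsStationary α p ν) : stepMeas α p ν = ν := by
  have := h.1
  refine ext_of_cont fun φ => ?_
  rw [int_step, h.2 φ]

/-- The successive laws of the chain started at `0`. -/
def lawSeq : ℕ → Measure UnitAddCircle
  | 0 => Measure.dirac 0
  | n + 1 => stepMeas α p (lawSeq n)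

instance lawSeq_prob (n : ℕ) : IsProbabilityMeasure (lawSeq α p n) := by
  induction n with
  | zero => unfold lawSeq; infer_instance
  | succ n ih => unfold lawSeq; infer_instance

/-- Averages of the laws. -/
def avgMeas (n : ℕ) : Measure UnitAddCircle :=
  ((n + 1 : ℕ) : ℝ≥0∞)⁻¹ • ∑ i ∈ Finset.range (n + 1), lawSeq α p i

instance avgMeas_prob (n : ℕ) : IsProbabilityMeasure (avgMeas α p n) := by
  constructor
  unfold avgMeas
  rw [Measure.smul_apply, Measure.finsetSum_apply]
  simp only [measure_univ, Finset.sum_const, Finset.card_range, smul_eq_mul, nsmul_eq_mul, mul_one]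
  exact ENNReal.inv_mul_cancel (by simp) (ENNReal.natCast_ne_top _)

lemma int_avg (n : ℕ) (φ : C(UnitAddCircle, ℝ)) :
    ∫ y, φ y ∂(avgMeas α p n)
      = ((n + 1 : ℕ) : ℝ)⁻¹ * ∑ i ∈ Finset.range (n + 1), ∫ y, φ y ∂(lawSeq α p i) := by
  unfold avgMeas
  rw [integral_smul_measure, integral_finsetSum_measure (fun i _ => cont_int _ φ.continuous),
    ENNReal.toReal_inv, ENNReal.toReal_natCast, smul_eq_mul]

lemma transOp_cont (φ : C(UnitAddCircle, ℝ)) : Continuous (transOp α p φ) := by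
  unfold transOp
  exact ((contP p).mul (φ.continuous.comp (continuous_add_const _))).add
    ((contQ p).mul (φ.continuous.comp (continuous_id.sub continuous_const)))

theorem exists_stationary : ∃ ν, IsStationary α p ν := by
  set A : ℕ → ProbabilityMeasure UnitAddCircle := fun n => ⟨avgMeas α p n, avgMeas_prob α p n⟩
    with hA
  set U : Ultrafilter (ProbabilityMeasure UnitAddCircle) := (hyperfilter ℕ).map A with hU
  have hle : (U : Filter (ProbabilityMeasure UnitAddCircle)) ≤ 𝓝 U.lim := U.le_nhds_lim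
  have ht : Tendsto A (hyperfilter ℕ) (𝓝 U.lim) := hle
  rw [ProbabilityMeasure.tendsto_iff_forall_integral_tendsto] at ht
  have ht' : ∀ φ : C(UnitAddCircle, ℝ), Tendsto (fun n => ∫ y, φ y ∂(avgMeas α p n))
      (hyperfilter ℕ) (𝓝 (∫ y, φ y ∂(U.lim : Measure UnitAddCircle))) := by
    intro φ
    exact ht (BoundedContinuousFunction.mkOfCompact φ)
  refine ⟨U.lim, inferInstance, fun φ => ?_⟩
  have h1 := ht' φ
  have h2 := ht' ⟨transOp α p φ, transOp_cont α p φ⟩
  simp only [ContinuousMap.coe_mk] at h2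
  have h3 : ∀ n, ∫ y, transOp α p φ y ∂(avgMeas α p n) = ∫ y, φ y ∂(avgMeas α p n)
      + ((n + 1 : ℕ) : ℝ)⁻¹ * (∫ y, φ y ∂(lawSeq α p (n + 1)) - ∫ y, φ y ∂(lawSeq α p 0)) := by
    intro n
    have e1 := int_avg α p n ⟨transOp α p φ, transOp_cont α p φ⟩
    simp only [ContinuousMap.coe_mk] at e1
    rw [e1, int_avg, ← mul_add]
    congr 1
    have e2 : ∀ i, ∫ y, transOp α p φ y ∂(lawSeq α p i) = ∫ y, φ y ∂(lawSeq α p (i + 1)) := by
      intro i
      rw [← int_step]
      rfl
    simp_rw [e2]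
    rw [Finset.sum_range_succ' (fun i => ∫ y, φ y ∂(lawSeq α p i)),
      Finset.sum_range_succ (fun i => ∫ y, φ y ∂(lawSeq α p (i + 1)))]
    ring
  have h4 : Tendsto (fun n : ℕ => ((n + 1 : ℕ) : ℝ)⁻¹ *
      (∫ y, φ y ∂(lawSeq α p (n + 1)) - ∫ y, φ y ∂(lawSeq α p 0))) atTop (𝓝 0) := by
    have hb : ∀ i, |∫ y, φ y ∂(lawSeq α p i)| ≤ ‖φ‖ := by
      intro i
      have := norm_integral_le_of_norm_le_const (μ := lawSeq α p i)
        (Eventually.of_forall fun y => φ.norm_coe_le_norm y)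
      simpa using this
    refine squeeze_zero_norm (a := fun n : ℕ => ((n + 1 : ℕ) : ℝ)⁻¹ * (2 * ‖φ‖)) ?_ ?_
    · intro n
      rw [norm_mul, Real.norm_of_nonneg (by positivity)]
      gcongr
      rw [Real.norm_eq_abs]
      have := abs_sub (∫ y, φ y ∂(lawSeq α p (n + 1))) (∫ y, φ y ∂(lawSeq α p 0))
      linarith [hb (n + 1), hb 0]
    · have : Tendsto (fun n : ℕ => ((n + 1 : ℕ) : ℝ)⁻¹) atTop (𝓝 0) :=
        tendsto_inv_atTop_zero.comp (tendsto_natCast_atTop_atTop.comp (tendsto_add_atTop_nat 1))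
      simpa using this.mul_const (2 * ‖φ‖)
  have h5 := h1.add (h4.mono_left Nat.hyperfilter_le_atTop)
  rw [add_zero] at h5
  have h6 : (fun n => ∫ y, transOp α p φ y ∂(avgMeas α p n)) = fun n => ∫ y, φ y ∂(avgMeas α p n)
      + ((n + 1 : ℕ) : ℝ)⁻¹ * (∫ y, φ y ∂(lawSeq α p (n + 1)) - ∫ y, φ y ∂(lawSeq α p 0)) :=
    funext h3
  rw [h6] at h2
  exact tendsto_nhds_unique h2 h5

end exist

end

end Pool.Agent.Hhelper98.QuasiWalk
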