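import Pool.Agent.Hhelper98.QuasiWalk.Ergodic

open MeasureTheory ProbabilityTheory Filter Topology
open scoped ENNReal NNReal

namespace Pool.Agent.Hhelper98.QuasiWalk

noncomputable section

/-! ## Part D: zero flux -/

instance : IsProbabilityMeasure (volume : Measure UnitAddCircle) := ⟨UnitAddCircle.measure_univ⟩

lemma cont_int (μ : Measure UnitAddCircle) [IsFiniteMeasure μ] {φ : UnitAddCircle → ℝ}
    (hφ : Continuous φ) : Integrable φ μ := by
  refine Integrable.of_bound hφ.aestronglyMeasurable
    ‖(⟨φ, hφ⟩ : C(UnitAddCircle, ℝ))‖ (Eventually.of_forall fun y => ?_)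
  exact (⟨φ, hφ⟩ : C(UnitAddCircle, ℝ)).norm_coe_le_norm y

/-- A continuous function invariant under an irrational rotation is constant. -/
lemma cont_const {β : ℝ} (hβ : Irrational β) {G : UnitAddCircle → ℝ} (hG : Continuous G)
    (hinv : ∀ t, G (t + (β : UnitAddCircle)) = G t) (t : UnitAddCircle) : G t = G 0 := by
  have hj : ∀ j : ℕ, G (0 + j • (β : UnitAddCircle)) = G 0 := by
    intro j
    induction j with
    | zero => simp
    | succ j ih => rw [succ_nsmul, ← add_assoc, hinv, ih]
  by_contra hne
  have hpos : 0 < dist (G t) (G 0) := dist_pos.2 hne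
  obtain ⟨δ, hδ, hδ'⟩ := Metric.continuous_iff.1 hG t _ hpos
  obtain ⟨M, hM⟩ := exists_nat_gt (2 / δ)
  obtain ⟨N, hMN, hg⟩ := exists_good hβ M
  obtain ⟨j, _, hd⟩ := hg.cover 0 t
  have hN : (0 : ℝ) < N := Nat.cast_pos.2 hg.pos
  have h1 : (2 : ℝ) / N < δ := by
    rw [div_lt_iff₀ hN]
    have h2 : (M : ℝ) < N := by exact_mod_cast hMN
    rw [div_lt_iff₀ hδ] at hM
    nlinarith
  have := hδ' (0 + j • (β : UnitAddCircle)) (by rw [dist_comm]; exact lt_of_le_of_lt hd h1)
  rw [hj j, dist_comm] at this
  exact lt_irrefl _ this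

/-- If the difference of two finite measures is invariant under an irrational rotation, then it is
a multiple of Lebesgue measure. -/
lemma flux_const {β : ℝ} (hβ : Irrational β) (μ₁ μ₂ : Measure UnitAddCircle) [IsFiniteMeasure μ₁]
    [IsFiniteMeasure μ₂]
    (h : ∀ φ : C(UnitAddCircle, ℝ), ∫ y, φ (y + (β : UnitAddCircle)) ∂μ₁
      - ∫ y, φ (y + (β : UnitAddCircle)) ∂μ₂ = ∫ y, φ y ∂μ₁ - ∫ y, φ y ∂μ₂)
    (φ : C(UnitAddCircle, ℝ)) :
    ∫ y, φ y ∂μ₁ - ∫ y, φ y ∂μ₂ = (μ₁.real Set.univ - μ₂.real Set.univ) * ∫ y, φ y := by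
  have hcont : ∀ μ : Measure UnitAddCircle, IsFiniteMeasure μ →
      Continuous fun t : UnitAddCircle => ∫ y, φ (y + t) ∂μ := by
    intro μ _
    refine continuous_of_dominated (F := fun t y => φ (y + t)) (bound := fun _ => ‖φ‖) ?_ ?_ ?_ ?_
    · intro t
      exact (φ.continuous.comp (by fun_prop)).aestronglyMeasurable
    · intro t
      exact Eventually.of_forall fun y => φ.norm_coe_le_norm _
    · exact integrable_const _
    · exact Eventually.of_forall fun y => φ.continuous.comp (by fun_prop)
  have hswap : ∀ μ : Measure UnitAddCircle, IsFiniteMeasure μ →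
      ∫ t, (∫ y, φ (y + t) ∂μ) = μ.real Set.univ * ∫ y, φ y := by
    intro μ _
    rw [integral_integral_swap]
    · have : ∀ y : UnitAddCircle, ∫ t, φ (y + t) = ∫ t, φ t := fun y =>
        integral_add_left_eq_self (μ := (volume : Measure UnitAddCircle)) φ y
      simp_rw [this]
      rw [integral_const, smul_eq_mul]
    · refine Integrable.of_bound (C := ‖φ‖) ?_ ?_
      · exact (φ.continuous.comp (by fun_prop)).aestronglyMeasurable
      · exact Eventually.of_forall fun y => φ.norm_coe_le_norm _
  set G : UnitAddCircle → ℝ := fun t => ∫ y, φ (y + t) ∂μ₁ - ∫ y, φ (y + t) ∂μ₂ with hG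
  have hGc : Continuous G := (hcont μ₁ inferInstance).sub (hcont μ₂ inferInstance)
  have hGi : ∀ t, G (t + (β : UnitAddCircle)) = G t := by
    intro t
    have := h (φ.comp ⟨fun y => y + t, by fun_prop⟩)
    simp only [ContinuousMap.comp_apply, ContinuousMap.coe_mk] at this
    rw [hG]
    beta_reduce
    rw [← this]
    congr 1 <;>
    · refine integral_congr_ae (Eventually.of_forall fun y => ?_)
      beta_reduce
      congr 1
      abel
  have hGconst := cont_const hβ hGc hGi
  have h0 : G 0 = ∫ y, φ y ∂μ₁ - ∫ y, φ y ∂μ₂ := by simp [hG]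
  have h1 : ∫ t : UnitAddCircle, G t = G 0 := by
    rw [integral_congr_ae (Eventually.of_forall hGconst)]
    simp
  rw [← h0, ← h1, hG, integral_sub (cont_int _ (hcont μ₁ inferInstance))
    (cont_int _ (hcont μ₂ inferInstance)), hswap μ₁ inferInstance, hswap μ₂ inferInstance]
  ring

/-- No flux of positive sign. -/
lemma no_flux (b : UnitAddCircle) {l : UnitAddCircle → ℝ} (hl : Continuous l)
    (hl0 : ∫ y, l y = 0) (μ : Measure UnitAddCircle) [IsFiniteMeasure μ] (c : ℝ≥0∞)
    (h : μ = (μ.withDensity fun y => ENNReal.ofReal (Real.exp (l y))).map (fun y => y + b)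
      + c • volume) : c = 0 := by
  have hcc : ∀ j, Continuous (cocyc b l j) := by
    intro j
    unfold cocyc
    exact continuous_finsetSum _ fun i _ => hl.comp (by fun_prop)
  have hc0 : ∀ j, ∫ y, cocyc b l j y = 0 := by
    intro j
    unfold cocyc
    have hli : ∀ i ∈ Finset.range j,
        Integrable (fun y : UnitAddCircle => l (y + i • b)) volume := fun i _ =>
      cont_int _ (hl.comp (continuous_add_const (i • b)))
    rw [integral_finsetSum _ hli]
    refine Finset.sum_eq_zero fun i _ => ?_
    rw [← hl0]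
    exact integral_add_right_eq_self (μ := (volume : Measure UnitAddCircle)) l (i • b)
  have hge : ∀ j, 1 ≤ ∫⁻ y : UnitAddCircle, ENNReal.ofReal (Real.exp (cocyc b l j y)) := by
    intro j
    have hexpc : Continuous fun y => Real.exp (cocyc b l j y) := Real.continuous_exp.comp (hcc j)
    rw [← ofReal_integral_eq_lintegral_ofReal (cont_int _ hexpc)
      (Eventually.of_forall fun y => (Real.exp_pos _).le), ENNReal.one_le_ofReal]
    calc (1 : ℝ) = ∫ y : UnitAddCircle, (cocyc b l j y + 1) := by
          rw [integral_add (cont_int _ (hcc j)) (integrable_const _), hc0 j]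
          simp
      _ ≤ _ := by
          refine integral_mono ((cont_int _ (hcc j)).add (integrable_const _))
            (cont_int _ hexpc) fun y => ?_
          exact Real.add_one_le_exp _
  have hstep : ∀ j, ∫⁻ y, ENNReal.ofReal (Real.exp (cocyc b l j y)) ∂μ
      = ∫⁻ y, ENNReal.ofReal (Real.exp (cocyc b l (j + 1) y)) ∂μ
        + c * ∫⁻ y : UnitAddCircle, ENNReal.ofReal (Real.exp (cocyc b l j y)) := by
    intro j
    have hm : Measurable fun y => ENNReal.ofReal (Real.exp (cocyc b l j y)) := by
      have := (hcc j).measurable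
      fun_prop
    have hlm := hl.measurable
    have hlm' : Measurable fun y => ENNReal.ofReal (Real.exp (l y)) := by fun_prop
    have hmb : Measurable fun y => ENNReal.ofReal (Real.exp (cocyc b l j (y + b))) := by
      have := ((hcc j).comp (continuous_add_const b)).measurable
      exact (Real.continuous_exp.measurable.comp this).ennreal_ofReal
    conv_lhs => rw [h]
    rw [lintegral_add_measure, lintegral_smul_measure, lintegral_map hm (by fun_prop),
      lintegral_withDensity_eq_lintegral_mul _ hlm' hmb]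
    congr 1
    refine lintegral_congr fun y => ?_
    rw [Pi.mul_apply, cocyc_succ, Real.exp_add, ENNReal.ofReal_mul (Real.exp_nonneg _), mul_comm]
  have hind : ∀ n : ℕ, n * c ≤ μ Set.univ := by
    intro n
    have : ∀ n : ℕ, ∫⁻ y, ENNReal.ofReal (Real.exp (cocyc b l n y)) ∂μ + n * c ≤ μ Set.univ := by
      intro n
      induction n with
      | zero => simp [cocyc]
      | succ n ih =>
        refine le_trans ?_ ih
        rw [hstep n]
        push_cast
        rw [add_mul, one_mul, add_comm ((n : ℝ≥0∞) * c) c, ← add_assoc]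
        gcongr
        calc c = c * 1 := (mul_one c).symm
          _ ≤ _ := by gcongr; exact hge n
    exact le_trans le_add_self (this n)
  by_contra hc
  have hfin := measure_lt_top μ Set.univ
  have hctop : c ≠ ∞ := by
    intro hct
    have := hind 1
    rw [hct] at this
    simp at this
  obtain ⟨n, hn⟩ := ENNReal.exists_nat_mul_gt hc hfin.ne
  exact absurd (hind n) (not_le.2 hn)

end

end Pool.Agent.Hhelper98.QuasiWalk
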