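import Pool.Agent.Hhelper98.QuasiWalk.Powers

open MeasureTheory ProbabilityTheory Filter Topology
open scoped ENNReal NNReal InnerProductSpace

namespace Pool.Agent.Hhelper98.QuasiWalk

noncomputable section

/-! ## Part H: the limit in `L²` -/

lemma BM.memLp {φ : UnitAddCircle → ℝ} (h : BM φ) (ν : Measure UnitAddCircle) [IsFiniteMeasure ν] :
    MemLp φ 2 ν := by
  obtain ⟨M, hM⟩ := h.bdd
  exact MemLp.of_bound h.meas.aestronglyMeasurable M (Eventually.of_forall fun y => hM y)

lemma inner_toLp {ν : Measure UnitAddCircle} {φ ψ : UnitAddCircle → ℝ} (h1 : MemLp φ 2 ν)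
    (h2 : MemLp ψ 2 ν) : ⟪h1.toLp φ, h2.toLp ψ⟫_ℝ = ∫ y, φ y * ψ y ∂ν := by
  rw [L2.inner_def]
  refine integral_congr_ae ?_
  filter_upwards [h1.coeFn_toLp, h2.coeFn_toLp] with y e1 e2
  rw [e1, e2, real_inner_eq_re_inner]
  simp [mul_comm]

lemma norm_sq_toLp {ν : Measure UnitAddCircle} {φ : UnitAddCircle → ℝ} (h1 : MemLp φ 2 ν) :
    ‖h1.toLp φ‖ ^ 2 = ∫ y, φ y ^ 2 ∂ν := by
  rw [← real_inner_self_eq_norm_sq, inner_toLp]
  simp only [pow_two]

/-- A sequence in a Hilbert space with Hankel Gram matrix built from a convergent sequence is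
Cauchy. -/
lemma cauchy_of_gram {H : Type} [NormedAddCommGroup H] [InnerProductSpace ℝ H] (F : ℕ → H)
    (e : ℕ → ℝ) {l : ℝ} (he : Tendsto e atTop (𝓝 l)) (hF : ∀ i j, ⟪F i, F j⟫_ℝ = e (i + j)) :
    CauchySeq F := by
  rw [Metric.cauchySeq_iff]
  intro ε hε
  obtain ⟨N, hN⟩ := Metric.tendsto_atTop.1 he (ε ^ 2 / 8) (by positivity)
  refine ⟨N, fun i hi j hj => ?_⟩
  rw [dist_eq_norm]
  refine lt_of_pow_lt_pow_left₀ 2 hε.le ?_
  rw [norm_sub_sq_real, ← real_inner_self_eq_norm_sq, ← real_inner_self_eq_norm_sq, hF, hF, hF]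
  have h1 := abs_lt.1 (Real.dist_eq _ _ ▸ hN (i + i) (by omega))
  have h2 := abs_lt.1 (Real.dist_eq _ _ ▸ hN (j + j) (by omega))
  have h3 := abs_lt.1 (Real.dist_eq _ _ ▸ hN (i + j) (by omega))
  nlinarith [h1.1, h1.2, h2.1, h2.2, h3.1, h3.2, sq_pos_of_pos hε]

variable {α : ℝ} {p : C(UnitAddCircle, Set.Ioo (0 : ℝ) 1)}

lemma Bal.two_step {ν : Measure UnitAddCircle} (h : Bal α p ν) {u : UnitAddCircle → ℝ≥0∞}
    (hu : Measurable u) :
    ∫⁻ y, ENNReal.ofReal (p y : ℝ) * (ENNReal.ofReal (p (y + (α : UnitAddCircle)) : ℝ)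
      * u (y + (α : UnitAddCircle) + (α : UnitAddCircle))) ∂ν ≤ ∫⁻ y, u y ∂ν := by
  have hm := (contP p).measurable
  have h1 : Measurable fun y => u (y + (α : UnitAddCircle)) := hu.comp (measurable_id.add_const _)
  have h2 : Measurable fun y => ENNReal.ofReal (p y : ℝ) * u (y + (α : UnitAddCircle)) :=
    hm.ennreal_ofReal.mul h1
  have e1 := h.lint h2
  beta_reduce at e1
  rw [e1]
  calc ∫⁻ y, ENNReal.ofReal (1 - (p y : ℝ)) * (ENNReal.ofReal (p y : ℝ)
          * u (y + (α : UnitAddCircle))) ∂ν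
      ≤ ∫⁻ y, ENNReal.ofReal (p y : ℝ) * u (y + (α : UnitAddCircle)) ∂ν := by
        refine lintegral_mono fun y => ?_
        calc _ ≤ 1 * (ENNReal.ofReal (p y : ℝ) * u (y + (α : UnitAddCircle))) := by
              gcongr
              rw [← ENNReal.ofReal_one]
              exact ENNReal.ofReal_le_ofReal (by linarith [(p y).2.1])
          _ = _ := one_mul _
    _ = ∫⁻ y, ENNReal.ofReal (1 - (p y : ℝ)) * u y ∂ν := h.lint hu
    _ ≤ ∫⁻ y, u y ∂ν := by
        refine lintegral_mono fun y => ?_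
        calc _ ≤ 1 * u y := by
              gcongr
              rw [← ENNReal.ofReal_one]
              exact ENNReal.ofReal_le_ofReal (by linarith [(p y).2.1])
          _ = _ := one_mul _

lemma three_sq (x y z : ℝ) : (x + y + z) ^ 2 ≤ 3 * (x ^ 2 + y ^ 2 + z ^ 2) := by
  nlinarith [sq_nonneg (x - y), sq_nonneg (y - z), sq_nonneg (x - z)]

/-- The relation for the double step. -/
lemma rel_two {ν : Measure UnitAddCircle} (hK : Measurable (coc α p))
    (h : Rel (α : UnitAddCircle) (coc α p) ν) :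
    Rel ((2 * α : ℝ) : UnitAddCircle) (cocyc (α : UnitAddCircle) (coc α p) 2) ν := by
  intro ψ hψ
  rw [h.iterate hK 2 ψ hψ]
  have e : ((2 * α : ℝ) : UnitAddCircle) = 2 • (α : UnitAddCircle) := by
    rw [nsmul_coe]; norm_num
  rw [e]

lemma lip_two {b : UnitAddCircle} {f : UnitAddCircle → ℝ} {K : ℝ≥0} (hf : LipschitzWith K f) :
    LipschitzWith (K + K) (cocyc b f 2) := by
  have h1 : LipschitzWith K fun y => f (y + b) := by
    refine LipschitzWith.of_dist_le_mul fun y z => ?_
    have := hf.dist_le_mul (y + b) (z + b)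
    rwa [dist_add_right] at this
  have h2 : cocyc b f 2 = fun y => f y + f (y + b) := by
    ext y
    unfold cocyc
    rw [Finset.sum_range_succ, Finset.sum_range_one]
    simp
  rw [h2]
  exact hf.add h1

theorem pw_tendsto (hα : Irrational α)
    (hp : ContDiff ℝ 1 fun x : ℝ => ((p (x : UnitAddCircle) : Set.Ioo (0 : ℝ) 1) : ℝ))
    {ν : Measure UnitAddCircle} [IsProbabilityMeasure ν] (h : Bal α p ν)
    {φ : UnitAddCircle → ℝ} (hφ : BM φ) :
    Tendsto (fun n => ∫ y, (pw α p φ n y - ∫ z, φ z ∂ν) ^ 2 ∂ν) atTop (𝓝 0) := by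
  set c := ∫ z, φ z ∂ν with hc
  obtain ⟨l, hl⟩ := energy_tendsto h hφ
  set e : ℕ → ℝ := fun n => ∫ y, (pw α p φ n y) ^ 2 ∂ν with he
  -- the Hilbert space sequence
  set F : ℕ → Lp ℝ 2 ν := fun i => ((hφ.pw (α := α) (p := p) (2 * i)).memLp ν).toLp _ with hF
  have hgram : ∀ i j, ⟪F i, F j⟫_ℝ = e (i + j) := by
    intro i j
    rw [hF]
    beta_reduce
    rw [inner_toLp, pw_corr h hφ, he]
    beta_reduce
    rw [energy_eq h hφ]
    congr 1
    ring
  obtain ⟨G, hG⟩ := cauchySeq_tendsto_of_complete (cauchy_of_gram F e hl hgram)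
  set g : UnitAddCircle → ℝ := (G : UnitAddCircle → ℝ) with hg
  have hgm : Measurable g := (Lp.stronglyMeasurable G).measurable
  have hgLp : MemLp g 2 ν := Lp.memLp G
  have hGg : hgLp.toLp g = G := Lp.toLp_coeFn G hgLp
  -- squared distance
  have hdist : ∀ i, ‖F i - G‖ ^ 2 = ∫ y, (pw α p φ (2 * i) y - g y) ^ 2 ∂ν := by
    intro i
    have e1 : F i - G = (((hφ.pw (α := α) (p := p) (2 * i)).memLp ν).sub hgLp).toLp _ := by
      rw [MemLp.toLp_sub _ hgLp, hGg]
    rw [e1, norm_sq_toLp]
    rfl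
  have hdist0 : Tendsto (fun i => ‖F i - G‖ ^ 2) atTop (𝓝 0) := by
    have := (tendsto_iff_norm_sub_tendsto_zero.1 hG).pow 2
    simpa using this
  have hdl : ∀ i, ∫⁻ y, ENNReal.ofReal ((pw α p φ (2 * i) y - g y) ^ 2) ∂ν
      = ENNReal.ofReal (‖F i - G‖ ^ 2) := by
    intro i
    rw [hdist, ofReal_integral_eq_lintegral_ofReal]
    · exact ((((hφ.pw (α := α) (p := p) (2 * i)).memLp ν).sub hgLp)).integrable_sq
    · exact Eventually.of_forall fun y => sq_nonneg _
  -- invariance of the limit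
  have hzero : ∫⁻ y, ENNReal.ofReal (((p y : ℝ) * (p (y + (α : UnitAddCircle)) : ℝ)) *
      (g (y + (α : UnitAddCircle) + (α : UnitAddCircle)) - g y) ^ 2) ∂ν = 0 := by
    have hle : ∀ i, ∫⁻ y, ENNReal.ofReal (((p y : ℝ) * (p (y + (α : UnitAddCircle)) : ℝ)) *
        (g (y + (α : UnitAddCircle) + (α : UnitAddCircle)) - g y) ^ 2) ∂ν
        ≤ 3 * (ENNReal.ofReal (‖F i - G‖ ^ 2) + ENNReal.ofReal (2 * (e (2 * i) - e (2 * i + 1)))
          + ENNReal.ofReal (‖F i - G‖ ^ 2)) := by
      intro i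
      set a := pw α p φ (2 * i) with ha
      have hab : BM a := hφ.pw (2 * i)
      have ham := hab.meas
      have hPm := (contP p).measurable
      have m1 : Measurable fun y => ENNReal.ofReal ((a y - g y) ^ 2) := by fun_prop
      have hPs : Measurable fun y => (p (y + (α : UnitAddCircle)) : ℝ) :=
        hPm.comp (measurable_id.add_const _)
      have hss : Measurable fun y : UnitAddCircle => y + (α : UnitAddCircle) + (α : UnitAddCircle) :=
        (measurable_id.add_const _).add_const _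
      have has : Measurable fun y => a (y + (α : UnitAddCircle) + (α : UnitAddCircle)) := ham.comp hss
      have hgs : Measurable fun y => g (y + (α : UnitAddCircle) + (α : UnitAddCircle)) := hgm.comp hss
      have b1 : ∫⁻ y, ENNReal.ofReal (((p y : ℝ) * (p (y + (α : UnitAddCircle)) : ℝ)) *
          (a (y + (α : UnitAddCircle) + (α : UnitAddCircle))
            - g (y + (α : UnitAddCircle) + (α : UnitAddCircle))) ^ 2) ∂ν
          ≤ ENNReal.ofReal (‖F i - G‖ ^ 2) := by
        rw [← hdl i]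
        refine le_trans (le_of_eq ?_) (h.two_step m1)
        refine lintegral_congr fun y => ?_
        rw [ENNReal.ofReal_mul (mul_pos (p _).2.1 (p _).2.1).le, ENNReal.ofReal_mul (p _).2.1.le,
          mul_assoc]
      have b2 : ∫⁻ y, ENNReal.ofReal (((p y : ℝ) * (p (y + (α : UnitAddCircle)) : ℝ)) *
          (a (y + (α : UnitAddCircle) + (α : UnitAddCircle)) - a y) ^ 2) ∂ν
          ≤ ENNReal.ofReal (2 * (e (2 * i) - e (2 * i + 1))) := by
        rw [← ofReal_integral_eq_lintegral_ofReal]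
        · exact ENNReal.ofReal_le_ofReal (dirichlet h hφ (2 * i))
        · exact ((bmP.mul (bmP.shift _)).mul (((hab.shift _).shift _).sub hab).sq).int ν
        · exact Eventually.of_forall fun y =>
            mul_nonneg (mul_pos (p _).2.1 (p _).2.1).le (sq_nonneg _)
      have b3 : ∫⁻ y, ENNReal.ofReal (((p y : ℝ) * (p (y + (α : UnitAddCircle)) : ℝ)) *
          (a y - g y) ^ 2) ∂ν ≤ ENNReal.ofReal (‖F i - G‖ ^ 2) := by
        rw [← hdl i]
        refine lintegral_mono fun y => ?_
        refine ENNReal.ofReal_le_ofReal ?_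
        have h1 := (p y).2
        have h2 := (p (y + (α : UnitAddCircle))).2
        have : (p y : ℝ) * (p (y + (α : UnitAddCircle)) : ℝ) ≤ 1 := by nlinarith [h1.1, h1.2, h2.1, h2.2]
        nlinarith [sq_nonneg (a y - g y)]
      calc ∫⁻ y, ENNReal.ofReal (((p y : ℝ) * (p (y + (α : UnitAddCircle)) : ℝ)) *
            (g (y + (α : UnitAddCircle) + (α : UnitAddCircle)) - g y) ^ 2) ∂ν
          ≤ ∫⁻ y, 3 * (ENNReal.ofReal (((p y : ℝ) * (p (y + (α : UnitAddCircle)) : ℝ)) *
          (a (y + (α : UnitAddCircle) + (α : UnitAddCircle))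
            - g (y + (α : UnitAddCircle) + (α : UnitAddCircle))) ^ 2)
            + ENNReal.ofReal (((p y : ℝ) * (p (y + (α : UnitAddCircle)) : ℝ)) *
          (a (y + (α : UnitAddCircle) + (α : UnitAddCircle)) - a y) ^ 2)
            + ENNReal.ofReal (((p y : ℝ) * (p (y + (α : UnitAddCircle)) : ℝ)) *
          (a y - g y) ^ 2)) ∂ν := by
            refine lintegral_mono fun y => ?_
            have hw := (mul_pos (p y).2.1 (p (y + (α : UnitAddCircle))).2.1).le
            have h3 : (3 : ℝ≥0∞) = ENNReal.ofReal 3 := by norm_num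
            rw [h3, ← ENNReal.ofReal_add (by positivity) (by positivity),
              ← ENNReal.ofReal_add (by positivity) (by positivity),
              ← ENNReal.ofReal_mul (by norm_num)]
            refine ENNReal.ofReal_le_ofReal ?_
            have := three_sq (-(a (y + (α : UnitAddCircle) + (α : UnitAddCircle))
              - g (y + (α : UnitAddCircle) + (α : UnitAddCircle))))
              (a (y + (α : UnitAddCircle) + (α : UnitAddCircle)) - a y) (a y - g y)
            have e1 : (-(a (y + (α : UnitAddCircle) + (α : UnitAddCircle))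
              - g (y + (α : UnitAddCircle) + (α : UnitAddCircle))) +
              (a (y + (α : UnitAddCircle) + (α : UnitAddCircle)) - a y) + (a y - g y))
              = g (y + (α : UnitAddCircle) + (α : UnitAddCircle)) - g y := by ring
            rw [e1, neg_sq] at this
            nlinarith [mul_le_mul_of_nonneg_left this hw]
        _ = 3 * (∫⁻ y, ENNReal.ofReal (((p y : ℝ) * (p (y + (α : UnitAddCircle)) : ℝ)) *
          (a (y + (α : UnitAddCircle) + (α : UnitAddCircle))
            - g (y + (α : UnitAddCircle) + (α : UnitAddCircle))) ^ 2) ∂ν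
            + ∫⁻ y, ENNReal.ofReal (((p y : ℝ) * (p (y + (α : UnitAddCircle)) : ℝ)) *
          (a (y + (α : UnitAddCircle) + (α : UnitAddCircle)) - a y) ^ 2) ∂ν
            + ∫⁻ y, ENNReal.ofReal (((p y : ℝ) * (p (y + (α : UnitAddCircle)) : ℝ)) *
          (a y - g y) ^ 2) ∂ν) := by
            rw [lintegral_const_mul' _ _ (by norm_num), lintegral_add_left (by fun_prop),
              lintegral_add_left (by fun_prop)]
        _ ≤ _ := by gcongr
    have hlim : Tendsto (fun i => 3 * (ENNReal.ofReal (‖F i - G‖ ^ 2)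
        + ENNReal.ofReal (2 * (e (2 * i) - e (2 * i + 1)))
          + ENNReal.ofReal (‖F i - G‖ ^ 2))) atTop (𝓝 (3 * (ENNReal.ofReal 0
        + ENNReal.ofReal (2 * (l - l)) + ENNReal.ofReal 0))) := by
      have t1 : Tendsto (fun i : ℕ => 2 * i) atTop atTop :=
        tendsto_id.const_mul_atTop' (by norm_num)
      have t2 : Tendsto (fun i : ℕ => 2 * i + 1) atTop atTop :=
        tendsto_atTop_mono (fun i => by simp only [id]; omega) tendsto_id
      have u1 := (hl.comp t1).sub (hl.comp t2)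
      have u2 := ENNReal.tendsto_ofReal (u1.const_mul 2)
      have u3 := ENNReal.tendsto_ofReal hdist0
      exact ENNReal.Tendsto.const_mul ((u3.add u2).add u3) (Or.inr (by norm_num))
    have := ge_of_tendsto' hlim hle
    simpa using this
  have hinv : ∀ᵐ y ∂ν, g (y + ((2 * α : ℝ) : UnitAddCircle)) = g y := by
    have hPm := (contP p).measurable
    have hPs : Measurable fun y => (p (y + (α : UnitAddCircle)) : ℝ) :=
      hPm.comp (measurable_id.add_const _)
    have hss : Measurable fun y : UnitAddCircle => y + (α : UnitAddCircle) + (α : UnitAddCircle) :=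
      (measurable_id.add_const _).add_const _
    have hgs : Measurable fun y => g (y + (α : UnitAddCircle) + (α : UnitAddCircle)) := hgm.comp hss
    rw [lintegral_eq_zero_iff (by fun_prop)] at hzero
    filter_upwards [hzero] with y hy
    have e1 : y + ((2 * α : ℝ) : UnitAddCircle) = y + (α : UnitAddCircle) + (α : UnitAddCircle) := by
      rw [two_mul, AddCircle.coe_add, add_assoc]
    rw [e1]
    simp only [Pi.zero_apply, ENNReal.ofReal_eq_zero] at hy
    have hw := mul_pos (p y).2.1 (p (y + (α : UnitAddCircle))).2.1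
    have h2 : (g (y + (α : UnitAddCircle) + (α : UnitAddCircle)) - g y) ^ 2 ≤ 0 := by
      by_contra hcon
      push Not at hcon
      exact absurd hy (not_le.2 (mul_pos hw hcon))
    have h3 := pow_eq_zero_iff (two_ne_zero) |>.1 (le_antisymm h2 (sq_nonneg _))
    linarith
  obtain ⟨K, hK⟩ := coc_lipschitz α hp
  have hrel := rel_two (measurable_of_lip hK) (rel_of_balance h)
  have hα2 : Irrational (2 * α) := by
    have := hα.natCast_mul (m := 2) (by norm_num)
    simpa using this
  obtain ⟨c0, hc0⟩ := ae_const hα2 (lip_two hK) hrel hgm hinv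
  -- identification of the constant
  have hone : MemLp (fun _ : UnitAddCircle => (1 : ℝ)) 2 ν := (BM.const 1).memLp ν
  have hlim1 : Tendsto (fun i => ⟪F i, hone.toLp _⟫_ℝ) atTop (𝓝 ⟪G, hone.toLp _⟫_ℝ) :=
    hG.inner tendsto_const_nhds
  have e1 : ∀ i, ⟪F i, hone.toLp _⟫_ℝ = c := by
    intro i
    rw [hF]
    beta_reduce
    rw [inner_toLp]
    simp only [mul_one]
    exact pw_int h hφ (2 * i)
  have e2 : ⟪G, hone.toLp _⟫_ℝ = c0 := by
    rw [← hGg, inner_toLp, integral_congr_ae (g := fun _ => c0)]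
    · simp
    · filter_upwards [hc0] with y hy
      rw [hy, mul_one]
  simp_rw [e1] at hlim1
  rw [e2] at hlim1
  have hcc : c = c0 := tendsto_nhds_unique tendsto_const_nhds hlim1
  have hlim2 : Tendsto (fun i => ‖F i‖ ^ 2) atTop (𝓝 (‖G‖ ^ 2)) := hG.norm.pow 2
  have e3 : ∀ i, ‖F i‖ ^ 2 = e (2 * i) := by
    intro i
    rw [hF]
    beta_reduce
    rw [norm_sq_toLp]
  have e4 : ‖G‖ ^ 2 = c ^ 2 := by
    rw [← hGg, norm_sq_toLp, integral_congr_ae (g := fun _ => c0 ^ 2)]
    · simp [hcc]
    · filter_upwards [hc0] with y hy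
      rw [hy]
  have hlc : l = c ^ 2 := by
    have t1 : Tendsto (fun i : ℕ => 2 * i) atTop atTop :=
      tendsto_id.const_mul_atTop' (by norm_num)
    have := hl.comp t1
    rw [e4] at hlim2
    simp_rw [e3] at hlim2
    exact tendsto_nhds_unique this hlim2
  have e5 : ∀ n, ∫ y, (pw α p φ n y - c) ^ 2 ∂ν = e n - c ^ 2 := by
    intro n
    have b := hφ.pw (α := α) (p := p) n
    have : ∫ y, (pw α p φ n y - c) ^ 2 ∂ν
        = ∫ y, ((pw α p φ n y) ^ 2 - (2 * c * pw α p φ n y - c ^ 2)) ∂ν := by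
      refine integral_congr_ae (Eventually.of_forall fun y => ?_)
      beta_reduce
      ring
    rw [this, integral_sub (b.sq.int ν) ((((BM.const (2 * c)).mul b).sub (BM.const (c ^ 2))).int ν),
      integral_sub (((BM.const (2 * c)).mul b).int ν) (integrable_const _), integral_const_mul,
      pw_int h hφ n, integral_const]
    simp only [probReal_univ, smul_eq_mul, one_mul]
    rw [← hc, he]
    ring
  simp_rw [e5]
  have := hl.sub_const (c ^ 2)
  rw [hlc, sub_self] at this
  exact this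

end

end Pool.Agent.Hhelper98.QuasiWalk
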