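import Pool.Agent.Hhelper98.QuasiWalk.Chain

open MeasureTheory ProbabilityTheory Filter Topology
open scoped ENNReal NNReal

namespace Pool.Agent.Hhelper98.QuasiWalk

noncomputable section

/-! ## Part J: mixing -/

/-- Dominated setwise convergence extends from a generating pi-system. -/
lemma setwise {Ω : Type} [mΩ : MeasurableSpace Ω] {P : Measure Ω} [IsProbabilityMeasure P]
    {C : Set (Set Ω)} (hC : mΩ = MeasurableSpace.generateFrom C) (hpi : IsPiSystem C)
    (m : ℕ → Measure Ω) (hle : ∀ n A, MeasurableSet A → m n A ≤ P A) (b : ℝ)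
    (huniv : Tendsto (fun n => (m n).real Set.univ) atTop (𝓝 b))
    (hbase : ∀ A ∈ C, Tendsto (fun n => (m n).real A) atTop (𝓝 (P.real A * b)))
    {A : Set Ω} (hA : MeasurableSet A) :
    Tendsto (fun n => (m n).real A) atTop (𝓝 (P.real A * b)) := by
  have hfin : ∀ n, IsFiniteMeasure (m n) := fun n =>
    ⟨lt_of_le_of_lt (hle n _ MeasurableSet.univ) (measure_lt_top P _)⟩
  have hle' : ∀ n A, MeasurableSet A → (m n).real A ≤ P.real A := fun n A hA =>
    ENNReal.toReal_mono (measure_ne_top _ _) (hle n A hA)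
  refine MeasurableSpace.induction_on_inter
    (C := fun A _ => Tendsto (fun n => (m n).real A) atTop (𝓝 (P.real A * b))) hC hpi ?_ hbase
    ?_ ?_ A hA
  · simp
  · intro A hA h
    simp_rw [measureReal_compl hA]
    rw [sub_mul, probReal_univ, one_mul]
    exact huniv.sub h
  · intro f hd hf h
    have e1 : ∀ (μ : Measure Ω) [IsFiniteMeasure μ], μ.real (⋃ i, f i) = ∑' i, μ.real (f i) := by
      intro μ _
      unfold Measure.real
      rw [measure_iUnion hd hf, ENNReal.tsum_toReal_eq fun i => measure_ne_top _ _]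
    have e2 : ∀ n, (m n).real (⋃ i, f i) = ∑' i, (m n).real (f i) := fun n => e1 (m n)
    simp_rw [e2]
    rw [e1 P, ← tsum_mul_right]
    refine tendsto_tsum_of_dominated_convergence (bound := fun i => P.real (f i))
      (summable_measure_toReal hf hd) h (Eventually.of_forall fun n i => ?_)
    rw [Real.norm_of_nonneg measureReal_nonneg]
    exact hle' n _ (hf i)

/-- The family of cylinders. -/
def Cyl : Set (Set (ℕ → UnitAddCircle)) :=
  {s | ∃ (k : ℕ) (B : ℕ → Set UnitAddCircle), (∀ i, MeasurableSet (B i)) ∧ s = cyl k B}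

lemma cyl_pi : IsPiSystem Cyl := by
  rintro _ ⟨k, B, hB, rfl⟩ _ ⟨k', B', hB', rfl⟩ _
  refine ⟨max k k', fun i => (if i < k then B i else Set.univ) ∩ (if i < k' then B' i else Set.univ),
    fun i => ?_, ?_⟩
  · refine MeasurableSet.inter ?_ ?_ <;> split_ifs
    · exact hB i
    · exact MeasurableSet.univ
    · exact hB' i
    · exact MeasurableSet.univ
  · ext ω
    simp only [cyl, Set.mem_inter_iff, Set.mem_ofPred_eq]
    constructor
    · rintro ⟨h1, h2⟩ i _
      constructor <;> split_ifs with h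
      · exact h1 i h
      · trivial
      · exact h2 i h
      · trivial
    · intro h
      constructor
      · intro i hi
        have := (h i (lt_max_of_lt_left hi)).1
        rwa [if_pos hi] at this
      · intro i hi
        have := (h i (lt_max_of_lt_right hi)).2
        rwa [if_pos hi] at this

lemma cyl_gen : (MeasurableSpace.pi : MeasurableSpace (ℕ → UnitAddCircle))
    = MeasurableSpace.generateFrom Cyl := by
  apply le_antisymm
  · unfold MeasurableSpace.pi
    refine iSup_le fun i => ?_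
    rintro _ ⟨s, hs, rfl⟩
    apply MeasurableSpace.measurableSet_generateFrom
    refine ⟨i + 1, fun j => if j = i then s else Set.univ, fun j => ?_, ?_⟩
    · beta_reduce
      split_ifs
      · exact hs
      · exact MeasurableSet.univ
    · ext ω
      simp only [cyl, Set.mem_preimage, Set.mem_ofPred_eq]
      constructor
      · intro h j _
        split_ifs with hj
        · rw [hj]; exact h
        · trivial
      · intro h
        have := h i (Nat.lt_succ_self i)
        rwa [if_pos rfl] at this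
  · refine MeasurableSpace.generateFrom_le ?_
    rintro _ ⟨k, B, hB, rfl⟩
    exact cyl_meas k hB

variable {α : ℝ} {p : C(UnitAddCircle, Set.Ioo (0 : ℝ) 1)}

lemma law_n {ν : Measure UnitAddCircle} [IsProbabilityMeasure ν] (h : Bal α p ν)
    {φ : UnitAddCircle → ℝ} (hφ : BM φ) (h0 : ∀ y, 0 ≤ φ y) (n : ℕ) :
    ∫⁻ ω, ENNReal.ofReal (φ (ω n)) ∂(chainLaw α p ν) = ENNReal.ofReal (∫ y, φ y ∂ν) := by
  have h1 := markovn α p ν (Ad.one 0) hφ h0 n
  simp only [one_mul, zero_add] at h1
  rw [h1]
  have hm : Measurable fun y => ENNReal.ofReal (pw α p φ n y) := (hφ.pw n).meas.ennreal_ofReal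
  have h2 := lintegral_map (μ := chainLaw α p ν) hm (measurable_pi_apply 0)
  rw [chain_init] at h2
  rw [← h2, ← ofReal_integral_eq_lintegral_ofReal ((hφ.pw n).int ν)
    (Eventually.of_forall fun y => pw_nonneg α p h0 n y), pw_int h hφ]

lemma cyl_prob {ν : Measure UnitAddCircle} [IsProbabilityMeasure ν] (h : Bal α p ν) (k : ℕ)
    {B : ℕ → Set UnitAddCircle} (hB : ∀ i, MeasurableSet (B i)) (n : ℕ) :
    chainLaw α p ν (timeShift^[n] ⁻¹' (cyl k B)) = ENNReal.ofReal (∫ y, cylFun α p k B y ∂ν) := by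
  have h1 := cyl_formula α p ν k hB (Ad.one n)
  simp only [one_mul] at h1
  rw [law_n h (cylFun_bm α p k hB) (cylFun_nonneg α p k B)] at h1
  rw [← h1, ← lintegral_indicator_one ((measurable_timeShift.iterate n) (cyl_meas k hB))]
  rfl

lemma chain_inv {ν : Measure UnitAddCircle} [IsProbabilityMeasure ν] (h : Bal α p ν) :
    MeasurePreserving timeShift (chainLaw α p ν) (chainLaw α p ν) := by
  refine ⟨measurable_timeShift, ?_⟩
  have : IsProbabilityMeasure ((chainLaw α p ν).map timeShift) :=
    Measure.isProbabilityMeasure_map measurable_timeShift.aemeasurable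
  refine ext_of_generate_finite Cyl cyl_gen cyl_pi ?_ (by simp)
  rintro _ ⟨k, B, hB, rfl⟩
  rw [Measure.map_apply measurable_timeShift (cyl_meas k hB)]
  have h1 := cyl_prob h k hB 1
  have h0 := cyl_prob h k hB 0
  rw [Function.iterate_one] at h1
  rw [Function.iterate_zero, Set.preimage_id] at h0
  rw [h1, h0]

lemma cyl_ad (m : ℕ) {A : ℕ → Set UnitAddCircle} (hA : ∀ i, MeasurableSet (A i)) :
    Ad m ((cyl m A).indicator 1) := by
  induction m with
  | zero =>
    have : (cyl 0 A).indicator (1 : (ℕ → UnitAddCircle) → ℝ≥0∞) = fun _ => 1 := by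
      ext ω
      have : ω ∈ cyl 0 A := fun i hi => absurd hi (Nat.not_lt_zero i)
      rw [Set.indicator_of_mem this]; rfl
    rw [this]
    exact Ad.one 0
  | succ m ih =>
    have h1 : (cyl (m + 1) A).indicator (1 : (ℕ → UnitAddCircle) → ℝ≥0∞)
        = fun ω => (cyl m A).indicator 1 ω * (A m).indicator 1 (ω m) := by
      ext ω
      have hiff : ω ∈ cyl (m + 1) A ↔ (ω ∈ cyl m A ∧ ω m ∈ A m) := by
        unfold cyl
        simp only [Set.mem_ofPred_eq]
        constructor
        · intro h
          exact ⟨fun i hi => h i (by omega), h m (by omega)⟩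
        · rintro ⟨h1, h2⟩ i hi
          rcases Nat.lt_succ_iff_lt_or_eq.1 hi with h | h
          · exact h1 i h
          · rw [h]; exact h2
      by_cases ha : ω ∈ cyl m A
      · by_cases hb : ω m ∈ A m
        · rw [Set.indicator_of_mem (hiff.2 ⟨ha, hb⟩), Set.indicator_of_mem ha,
            Set.indicator_of_mem hb]; simp
        · rw [Set.indicator_of_notMem (fun h => hb (hiff.1 h).2), Set.indicator_of_notMem hb]; simp
      · rw [Set.indicator_of_notMem (fun h => ha (hiff.1 h).1), Set.indicator_of_notMem ha]; simp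
    rw [h1]
    exact (ih.mul (Ad.coord m (measurable_one.indicator (hA m)))).succ

/-- `L¹` convergence. -/
lemma l1_tendsto (hα : Irrational α)
    (hp : ContDiff ℝ 1 fun x : ℝ => ((p (x : UnitAddCircle) : Set.Ioo (0 : ℝ) 1) : ℝ))
    {ν : Measure UnitAddCircle} [IsProbabilityMeasure ν] (h : Bal α p ν)
    {φ : UnitAddCircle → ℝ} (hφ : BM φ) :
    Tendsto (fun n => ∫ y, |pw α p φ n y - ∫ z, φ z ∂ν| ∂ν) atTop (𝓝 0) := by
  have h1 := (pw_tendsto hα hp h hφ).sqrt
  rw [Real.sqrt_zero] at h1
  refine squeeze_zero (fun n => integral_nonneg fun y => abs_nonneg _) (fun n => ?_) h1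
  set u : UnitAddCircle → ℝ := fun y => |pw α p φ n y - ∫ z, φ z ∂ν| with hu
  have hub : BM u := by
    have := (hφ.pw (α := α) (p := p) n).sub (BM.const (∫ z, φ z ∂ν))
    obtain ⟨M, hM⟩ := this.bdd
    exact ⟨this.meas.abs, M, fun y => by rw [hu]; beta_reduce; rw [abs_abs]; exact hM y⟩
  set m := ∫ y, u y ∂ν with hm
  apply Real.le_sqrt_of_sq_le
  have e1 : ∫ y, (u y - m) ^ 2 ∂ν = ∫ y, (pw α p φ n y - ∫ z, φ z ∂ν) ^ 2 ∂ν - m ^ 2 := by
    have : ∫ y, (u y - m) ^ 2 ∂ν = ∫ y, (u y ^ 2 - (2 * m * u y - m ^ 2)) ∂ν := by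
      refine integral_congr_ae (Eventually.of_forall fun y => ?_)
      beta_reduce
      ring
    rw [this, integral_sub (hub.sq.int ν)
      ((((BM.const (2 * m)).mul hub).sub (BM.const (m ^ 2))).int ν),
      integral_sub (((BM.const (2 * m)).mul hub).int ν) (integrable_const _), integral_const_mul,
      integral_const]
    simp only [probReal_univ, smul_eq_mul, one_mul]
    rw [← hm]
    have e2 : ∫ y, u y ^ 2 ∂ν = ∫ y, (pw α p φ n y - ∫ z, φ z ∂ν) ^ 2 ∂ν := by
      refine integral_congr_ae (Eventually.of_forall fun y => ?_)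
      rw [hu]
      beta_reduce
      rw [sq_abs]
    rw [e2]
    ring
  have e3 : 0 ≤ ∫ y, (u y - m) ^ 2 ∂ν := integral_nonneg fun y => sq_nonneg _
  linarith

/-- Decorrelation of cylinders. -/
lemma cyl_mix (hα : Irrational α)
    (hp : ContDiff ℝ 1 fun x : ℝ => ((p (x : UnitAddCircle) : Set.Ioo (0 : ℝ) 1) : ℝ))
    {ν : Measure UnitAddCircle} [IsProbabilityMeasure ν] (h : Bal α p ν)
    (m : ℕ) {A : ℕ → Set UnitAddCircle} (hA : ∀ i, MeasurableSet (A i))
    (k : ℕ) {B : ℕ → Set UnitAddCircle} (hB : ∀ i, MeasurableSet (B i)) :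
    Tendsto (fun n => chainLaw α p ν (cyl m A ∩ timeShift^[n] ⁻¹' (cyl k B))) atTop
      (𝓝 (chainLaw α p ν (cyl m A) * chainLaw α p ν (cyl k B))) := by
  set P := chainLaw α p ν with hP
  set φ := cylFun α p k B with hφd
  have hφ : BM φ := cylFun_bm α p k hB
  have hφ0 : ∀ y, 0 ≤ φ y := cylFun_nonneg α p k B
  set c := ∫ y, φ y ∂ν with hc
  have hPB : P (cyl k B) = ENNReal.ofReal c := by
    have := cyl_prob h k hB 0
    rwa [Function.iterate_zero, Set.preimage_id] at this
  set F : (ℕ → UnitAddCircle) → ℝ≥0∞ := (cyl m A).indicator 1 with hF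
  have hFm : Ad m F := cyl_ad m hA
  have hF1 : ∀ ω, F ω ≤ 1 := fun ω => by
    rw [hF]; exact Set.indicator_le_self' (fun _ _ => zero_le_one) ω
  have hPA : P (cyl m A) = ∫⁻ ω, F ω ∂P := by
    rw [hF, lintegral_indicator_one (cyl_meas m hA)]
  -- formula for the probability
  have hAd : ∀ r, Ad (m + r) F := by
    intro r
    induction r with
    | zero => exact hFm
    | succ r ih => exact ih.succ
  have hform : ∀ r, P (cyl m A ∩ timeShift^[m + r] ⁻¹' (cyl k B))
      = ∫⁻ ω, F ω * ENNReal.ofReal (pw α p φ r (ω m)) ∂P := by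
    intro r
    rw [← markovn α p ν hFm hφ hφ0 r, ← cyl_formula α p ν k hB (hAd r),
      ← lintegral_indicator_one ((cyl_meas m hA).inter
        ((measurable_timeShift.iterate (m + r)) (cyl_meas k hB)))]
    refine lintegral_congr fun ω => ?_
    rw [Set.inter_indicator_one]
    rfl
  rw [← tendsto_add_atTop_iff_nat m]
  simp_rw [add_comm _ m, hform]
  rw [hPA, hPB]
  -- error term
  set δ : ℕ → ℝ≥0∞ := fun r => ENNReal.ofReal (∫ y, |pw α p φ r y - c| ∂ν) with hδ
  have hδ0 : Tendsto δ atTop (𝓝 0) := by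
    have := ENNReal.tendsto_ofReal (l1_tendsto hα hp h hφ)
    rwa [ENNReal.ofReal_zero] at this
  have habs : ∀ r, BM fun y => |pw α p φ r y - c| := by
    intro r
    have := (hφ.pw (α := α) (p := p) r).sub (BM.const c)
    obtain ⟨M, hM⟩ := this.bdd
    exact ⟨this.meas.abs, M, fun y => by rw [abs_abs]; exact hM y⟩
  have hδ' : ∀ r, ∫⁻ ω, ENNReal.ofReal |pw α p φ r (ω m) - c| ∂P = δ r := by
    intro r
    exact law_n h (habs r) (fun y => abs_nonneg _) m
  have hmF : Measurable F := hFm.meas
  have up : ∀ r, ∫⁻ ω, F ω * ENNReal.ofReal (pw α p φ r (ω m)) ∂P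
      ≤ (∫⁻ ω, F ω ∂P) * ENNReal.ofReal c + δ r := by
    intro r
    rw [← hδ' r, ← lintegral_mul_const _ hmF, ← lintegral_add_left (hmF.mul_const _)]
    refine lintegral_mono fun ω => ?_
    calc F ω * ENNReal.ofReal (pw α p φ r (ω m))
        ≤ F ω * (ENNReal.ofReal c + ENNReal.ofReal |pw α p φ r (ω m) - c|) := by
          gcongr
          refine le_trans (ENNReal.ofReal_le_ofReal ?_) ENNReal.ofReal_add_le
          linarith [le_abs_self (pw α p φ r (ω m) - c)]
      _ = F ω * ENNReal.ofReal c + F ω * ENNReal.ofReal |pw α p φ r (ω m) - c| := mul_add _ _ _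
      _ ≤ F ω * ENNReal.ofReal c + 1 * ENNReal.ofReal |pw α p φ r (ω m) - c| := by
          gcongr
          exact hF1 ω
      _ = _ := by rw [one_mul]
  have lo : ∀ r, (∫⁻ ω, F ω ∂P) * ENNReal.ofReal c - δ r
      ≤ ∫⁻ ω, F ω * ENNReal.ofReal (pw α p φ r (ω m)) ∂P := by
    intro r
    rw [tsub_le_iff_right]
    have hm' : Measurable fun ω : ℕ → UnitAddCircle => pw α p φ r (ω m) :=
      (hφ.pw r).meas.comp (measurable_pi_apply m)
    rw [← hδ' r, ← lintegral_mul_const _ hmF, ← lintegral_add_left (by fun_prop)]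
    refine lintegral_mono fun ω => ?_
    calc F ω * ENNReal.ofReal c
        ≤ F ω * (ENNReal.ofReal (pw α p φ r (ω m)) + ENNReal.ofReal |pw α p φ r (ω m) - c|) := by
          gcongr
          refine le_trans (ENNReal.ofReal_le_ofReal ?_) ENNReal.ofReal_add_le
          linarith [neg_abs_le (pw α p φ r (ω m) - c)]
      _ = F ω * ENNReal.ofReal (pw α p φ r (ω m)) + F ω * ENNReal.ofReal |pw α p φ r (ω m) - c| :=
          mul_add _ _ _
      _ ≤ F ω * ENNReal.ofReal (pw α p φ r (ω m)) + 1 * ENNReal.ofReal |pw α p φ r (ω m) - c| := by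
          gcongr
          exact hF1 ω
      _ = _ := by rw [one_mul]
  have hfinx : (∫⁻ ω, F ω ∂P) * ENNReal.ofReal c ≠ ∞ := by
    refine ENNReal.mul_ne_top ?_ ENNReal.ofReal_ne_top
    rw [← hPA]
    exact measure_ne_top _ _
  refine tendsto_of_tendsto_of_tendsto_of_le_of_le (g := fun r =>
    (∫⁻ ω, F ω ∂P) * ENNReal.ofReal c - δ r) (h := fun r =>
    (∫⁻ ω, F ω ∂P) * ENNReal.ofReal c + δ r) ?_ ?_ lo up
  · have := ENNReal.Tendsto.sub (tendsto_const_nhds (x := (∫⁻ ω, F ω ∂P) * ENNReal.ofReal c)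
      (f := (atTop : Filter ℕ))) hδ0 (Or.inl hfinx)
    rwa [tsub_zero] at this
  · have := (tendsto_const_nhds (x := (∫⁻ ω, F ω ∂P) * ENNReal.ofReal c)
      (f := (atTop : Filter ℕ))).add hδ0
    rwa [add_zero] at this

theorem mixing (hα : Irrational α)
    (hp : ContDiff ℝ 1 fun x : ℝ => ((p (x : UnitAddCircle) : Set.Ioo (0 : ℝ) 1) : ℝ))
    {ν : Measure UnitAddCircle} [IsProbabilityMeasure ν] (h : Bal α p ν) :
    IsMixing (chainLaw α p ν) := by
  set P := chainLaw α p ν with hP
  have hinv := chain_inv h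
  refine ⟨hinv, ?_⟩
  have hSm : ∀ n, Measurable (timeShift^[n]) := fun n => measurable_timeShift.iterate n
  have hSinv : ∀ n, MeasurePreserving (timeShift^[n]) P P := fun n => hinv.iterate n
  -- real valued version
  have main : ∀ A B : Set (ℕ → UnitAddCircle), MeasurableSet A → MeasurableSet B →
      Tendsto (fun n => P.real (A ∩ timeShift^[n] ⁻¹' B)) atTop (𝓝 (P.real A * P.real B)) := by
    -- first step: `B` a cylinder
    have step1 : ∀ A B : Set (ℕ → UnitAddCircle), MeasurableSet A → B ∈ Cyl →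
        Tendsto (fun n => P.real (A ∩ timeShift^[n] ⁻¹' B)) atTop (𝓝 (P.real A * P.real B)) := by
      rintro A B hA ⟨k, B', hB', rfl⟩
      have hBm := cyl_meas k hB'
      have e1 : ∀ n (A : Set (ℕ → UnitAddCircle)), MeasurableSet A →
          (P.restrict (timeShift^[n] ⁻¹' (cyl k B'))).real A
            = P.real (A ∩ timeShift^[n] ⁻¹' (cyl k B')) := by
        intro n A hA
        unfold Measure.real
        rw [Measure.restrict_apply hA]
      have := setwise (P := P) cyl_gen cyl_pi
        (fun n => P.restrict (timeShift^[n] ⁻¹' (cyl k B')))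
        (fun n A _ => Measure.restrict_apply_le _ _) (P.real (cyl k B')) ?_ ?_ hA
      · simp_rw [e1 _ A hA] at this
        exact this
      · simp_rw [e1 _ Set.univ MeasurableSet.univ, Set.univ_inter]
        have e2 : ∀ n, P.real (timeShift^[n] ⁻¹' (cyl k B')) = P.real (cyl k B') := by
          intro n
          unfold Measure.real
          rw [(hSinv n).measure_preimage hBm.nullMeasurableSet]
        simp_rw [e2]
        exact tendsto_const_nhds
      · rintro _ ⟨m, A', hA', rfl⟩
        simp_rw [e1 _ _ (cyl_meas m hA')]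
        have h1 := cyl_mix hα hp h m hA' k hB'
        have h2 := (ENNReal.tendsto_toReal (ENNReal.mul_ne_top (measure_ne_top _ _)
          (measure_ne_top _ _))).comp h1
        rw [ENNReal.toReal_mul] at h2
        exact h2
    intro A B hA hB
    have e1 : ∀ n (B : Set (ℕ → UnitAddCircle)), MeasurableSet B →
        ((P.restrict A).map (timeShift^[n])).real B = P.real (A ∩ timeShift^[n] ⁻¹' B) := by
      intro n B hB
      unfold Measure.real
      rw [Measure.map_apply (hSm n) hB, Measure.restrict_apply ((hSm n) hB), Set.inter_comm]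
    have := setwise (P := P) cyl_gen cyl_pi (fun n => (P.restrict A).map (timeShift^[n]))
      (fun n B hB => ?_) (P.real A) ?_ ?_ hB
    · simp_rw [e1 _ B hB] at this
      rw [mul_comm]
      exact this
    · rw [Measure.map_apply (hSm n) hB]
      refine (Measure.restrict_apply_le _ _).trans (le_of_eq ?_)
      exact (hSinv n).measure_preimage hB.nullMeasurableSet
    · simp_rw [e1 _ Set.univ MeasurableSet.univ, Set.preimage_univ, Set.inter_univ]
      exact tendsto_const_nhds
    · intro B' hB'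
      have hBm : MeasurableSet B' := by
        obtain ⟨k, B'', hB'', rfl⟩ := hB'
        exact cyl_meas k hB''
      simp_rw [e1 _ B' hBm]
      rw [mul_comm]
      exact step1 A B' hA hB'
  intro A B hA hB
  have h1 := ENNReal.tendsto_ofReal (main A B hA hB)
  rw [ENNReal.ofReal_mul measureReal_nonneg] at h1
  unfold Measure.real at h1
  simp_rw [ENNReal.ofReal_toReal (measure_ne_top _ _)] at h1
  exact h1

end

end Pool.Agent.Hhelper98.QuasiWalk
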