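import Pool.Agent.Hhelper98.QuasiWalk.Existence

open MeasureTheory ProbabilityTheory Filter Topology
open scoped ENNReal NNReal InnerProductSpace

namespace Pool.Agent.Hhelper98.QuasiWalk

noncomputable section

/-! ## Part G: convergence of the powers of the transition operator -/

/-- Bounded measurable functions. -/
structure BM (φ : UnitAddCircle → ℝ) : Prop where
  meas : Measurable φ
  bdd : ∃ M : ℝ, ∀ y, |φ y| ≤ M

lemma BM.mul {φ ψ : UnitAddCircle → ℝ} (h1 : BM φ) (h2 : BM ψ) : BM fun y => φ y * ψ y := by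
  obtain ⟨M, hM⟩ := h1.bdd
  obtain ⟨M', hM'⟩ := h2.bdd
  refine ⟨h1.meas.mul h2.meas, M * M', fun y => ?_⟩
  rw [abs_mul]
  exact mul_le_mul (hM y) (hM' y) (abs_nonneg _) ((abs_nonneg _).trans (hM y))

lemma BM.add {φ ψ : UnitAddCircle → ℝ} (h1 : BM φ) (h2 : BM ψ) : BM fun y => φ y + ψ y := by
  obtain ⟨M, hM⟩ := h1.bdd
  obtain ⟨M', hM'⟩ := h2.bdd
  exact ⟨h1.meas.add h2.meas, M + M', fun y => (abs_add_le _ _).trans (add_le_add (hM y) (hM' y))⟩

lemma BM.const (c : ℝ) : BM fun _ => c := ⟨measurable_const, |c|, fun _ => le_rfl⟩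

lemma BM.neg {φ : UnitAddCircle → ℝ} (h1 : BM φ) : BM fun y => - φ y := by
  obtain ⟨M, hM⟩ := h1.bdd
  exact ⟨h1.meas.neg, M, fun y => by rw [abs_neg]; exact hM y⟩

lemma BM.sub {φ ψ : UnitAddCircle → ℝ} (h1 : BM φ) (h2 : BM ψ) : BM fun y => φ y - ψ y := by
  simpa only [sub_eq_add_neg] using h1.add h2.neg

lemma BM.shift {φ : UnitAddCircle → ℝ} (h1 : BM φ) (c : UnitAddCircle) :
    BM fun y => φ (y + c) := by
  obtain ⟨M, hM⟩ := h1.bdd
  exact ⟨h1.meas.comp (measurable_id.add_const c), M, fun y => hM _⟩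

lemma BM.shift' {φ : UnitAddCircle → ℝ} (h1 : BM φ) (c : UnitAddCircle) :
    BM fun y => φ (y - c) := by
  simpa only [sub_eq_add_neg] using h1.shift (-c)

lemma BM.int {φ : UnitAddCircle → ℝ} (h1 : BM φ) (ν : Measure UnitAddCircle) [IsFiniteMeasure ν] :
    Integrable φ ν := by
  obtain ⟨M, hM⟩ := h1.bdd
  exact Integrable.of_bound h1.meas.aestronglyMeasurable M (Eventually.of_forall fun y => hM y)

variable {α : ℝ} {p : C(UnitAddCircle, Set.Ioo (0 : ℝ) 1)}

lemma bmP : BM fun y => (p y : ℝ) :=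
  ⟨(contP p).measurable, 1, fun y => by
    rw [abs_of_pos (p y).2.1]; exact (p y).2.2.le⟩

lemma bmQ : BM fun y => 1 - (p y : ℝ) := (BM.const 1).sub bmP

lemma BM.transOp {φ : UnitAddCircle → ℝ} (h1 : BM φ) : BM (transOp α p φ) :=
  (bmP.mul (h1.shift _)).add (bmQ.mul (h1.shift' _))

lemma transOp_bound {φ : UnitAddCircle → ℝ} {M : ℝ} (hM : ∀ y, |φ y| ≤ M) (y : UnitAddCircle) :
    |transOp α p φ y| ≤ M := by
  have h0 := (p y).2.1
  have h1 := sub_pos.2 (p y).2.2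
  unfold QuasiWalk.transOp
  refine (abs_add_le _ _).trans ?_
  rw [abs_mul, abs_mul, abs_of_pos h0, abs_of_pos h1]
  nlinarith [hM (y + (α : UnitAddCircle)), hM (y - (α : UnitAddCircle))]

/-- Balance in integrated form. -/
def Bal (α : ℝ) (p : C(UnitAddCircle, Set.Ioo (0 : ℝ) 1)) (ν : Measure UnitAddCircle) : Prop :=
  (ν.withDensity fun y => ENNReal.ofReal (p y : ℝ)).map (fun y => y + (α : UnitAddCircle))
    = ν.withDensity fun y => ENNReal.ofReal (1 - (p y : ℝ))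

lemma Bal.int {ν : Measure UnitAddCircle} (h : Bal α p ν) {φ : UnitAddCircle → ℝ}
    (hφ : Measurable φ) :
    ∫ y, (p y : ℝ) * φ (y + (α : UnitAddCircle)) ∂ν = ∫ y, (1 - (p y : ℝ)) * φ y ∂ν := by
  rw [← int_wd ν (contQ p) (fun y => sub_pos.2 (p y).2.2) φ, ← h,
    integral_map (by fun_prop) hφ.aestronglyMeasurable,
    int_wd ν (contP p) (fun y => (p y).2.1)]

lemma Bal.lint {ν : Measure UnitAddCircle} (h : Bal α p ν) {φ : UnitAddCircle → ℝ≥0∞}
    (hφ : Measurable φ) :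
    ∫⁻ y, ENNReal.ofReal (p y : ℝ) * φ (y + (α : UnitAddCircle)) ∂ν
      = ∫⁻ y, ENNReal.ofReal (1 - (p y : ℝ)) * φ y ∂ν := by
  have hm := (contP p).measurable
  have hm2 := (contQ p).measurable
  have h1 : Measurable fun y => φ (y + (α : UnitAddCircle)) := hφ.comp (measurable_id.add_const _)
  have h3 : Measurable fun y => ENNReal.ofReal (p y : ℝ) := by fun_prop
  have h4 : Measurable fun y => ENNReal.ofReal (1 - (p y : ℝ)) := by fun_prop
  have e1 := lintegral_withDensity_eq_lintegral_mul ν h4 hφ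
  have e2 := lintegral_withDensity_eq_lintegral_mul ν h3 h1
  simp only [Pi.mul_apply] at e1 e2
  rw [← e1, ← e2, ← h, lintegral_map hφ (by fun_prop)]

/-- Stationarity tested on bounded measurable functions. -/
lemma Bal.stat {ν : Measure UnitAddCircle} [IsFiniteMeasure ν] (h : Bal α p ν)
    {φ : UnitAddCircle → ℝ} (hφ : BM φ) :
    ∫ y, transOp α p φ y ∂ν = ∫ y, φ y ∂ν := by
  have h1 : ∫ y, (p y : ℝ) * φ (y + (α : UnitAddCircle)) ∂ν = ∫ y, (1 - (p y : ℝ)) * φ y ∂ν :=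
    h.int hφ.meas
  have h2 := h.int (φ := fun y => φ (y - (α : UnitAddCircle))) (hφ.shift' _).meas
  simp only [add_sub_cancel_right] at h2
  unfold transOp
  rw [integral_add ((bmP.mul (hφ.shift _)).int ν) ((bmQ.mul (hφ.shift' _)).int ν), h1, ← h2,
    ← integral_add ((bmQ.mul hφ).int ν) ((bmP.mul hφ).int ν)]
  refine integral_congr_ae (Eventually.of_forall fun y => ?_)
  beta_reduce
  ring

/-- Reversibility. -/
lemma Bal.symm' {ν : Measure UnitAddCircle} [IsFiniteMeasure ν] (h : Bal α p ν)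
    {φ ψ : UnitAddCircle → ℝ} (hφ : BM φ) (hψ : BM ψ) :
    ∫ y, φ y * transOp α p ψ y ∂ν = ∫ y, transOp α p φ y * ψ y ∂ν := by
  have e1 := h.int (φ := fun y => φ y * ψ (y - (α : UnitAddCircle))) (hφ.mul (hψ.shift' _)).meas
  have e2 := h.int (φ := fun y => φ (y - (α : UnitAddCircle)) * ψ y) ((hφ.shift' _).mul hψ).meas
  simp only [add_sub_cancel_right] at e1 e2
  have b1 : BM fun y => (p y : ℝ) * (φ y * ψ (y + (α : UnitAddCircle))) :=
    bmP.mul (hφ.mul (hψ.shift _))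
  have b2 : BM fun y => (1 - (p y : ℝ)) * (φ y * ψ (y - (α : UnitAddCircle))) :=
    bmQ.mul (hφ.mul (hψ.shift' _))
  have b3 : BM fun y => (p y : ℝ) * (φ (y + (α : UnitAddCircle)) * ψ y) :=
    bmP.mul ((hφ.shift _).mul hψ)
  have b4 : BM fun y => (1 - (p y : ℝ)) * (φ (y - (α : UnitAddCircle)) * ψ y) :=
    bmQ.mul ((hφ.shift' _).mul hψ)
  have l : ∫ y, φ y * transOp α p ψ y ∂ν
      = ∫ y, (p y : ℝ) * (φ y * ψ (y + (α : UnitAddCircle))) ∂ν
        + ∫ y, (1 - (p y : ℝ)) * (φ y * ψ (y - (α : UnitAddCircle))) ∂ν := by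
    rw [← integral_add (b1.int ν) (b2.int ν)]
    refine integral_congr_ae (Eventually.of_forall fun y => ?_)
    beta_reduce
    unfold transOp
    ring
  have r : ∫ y, transOp α p φ y * ψ y ∂ν
      = ∫ y, (p y : ℝ) * (φ (y + (α : UnitAddCircle)) * ψ y) ∂ν
        + ∫ y, (1 - (p y : ℝ)) * (φ (y - (α : UnitAddCircle)) * ψ y) ∂ν := by
    rw [← integral_add (b3.int ν) (b4.int ν)]
    refine integral_congr_ae (Eventually.of_forall fun y => ?_)
    beta_reduce
    unfold transOp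
    ring
  rw [l, r, ← e1, ← e2]
  ring

/-- The iterates of the transition operator. -/
def pw (α : ℝ) (p : C(UnitAddCircle, Set.Ioo (0 : ℝ) 1)) (φ : UnitAddCircle → ℝ) :
    ℕ → UnitAddCircle → ℝ
  | 0 => φ
  | n + 1 => transOp α p (pw α p φ n)

lemma BM.pw {φ : UnitAddCircle → ℝ} (h : BM φ) (n : ℕ) : BM (pw α p φ n) := by
  induction n with
  | zero => exact h
  | succ n ih => exact ih.transOp

lemma pw_bound {φ : UnitAddCircle → ℝ} {M : ℝ} (hM : ∀ y, |φ y| ≤ M) (n : ℕ) (y : UnitAddCircle) :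
    |pw α p φ n y| ≤ M := by
  induction n generalizing y with
  | zero => exact hM y
  | succ n ih => exact transOp_bound ih y

lemma pw_int {ν : Measure UnitAddCircle} [IsFiniteMeasure ν] (h : Bal α p ν)
    {φ : UnitAddCircle → ℝ} (hφ : BM φ) (n : ℕ) : ∫ y, pw α p φ n y ∂ν = ∫ y, φ y ∂ν := by
  induction n with
  | zero => rfl
  | succ n ih => rw [← ih]; exact h.stat (hφ.pw n)

/-- Correlations. -/
def corr (α : ℝ) (p : C(UnitAddCircle, Set.Ioo (0 : ℝ) 1)) (ν : Measure UnitAddCircle)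
    (φ : UnitAddCircle → ℝ) (n : ℕ) : ℝ := ∫ y, φ y * pw α p φ n y ∂ν

lemma pw_corr {ν : Measure UnitAddCircle} [IsFiniteMeasure ν] (h : Bal α p ν)
    {φ : UnitAddCircle → ℝ} (hφ : BM φ) (m n : ℕ) :
    ∫ y, pw α p φ m y * pw α p φ n y ∂ν = corr α p ν φ (m + n) := by
  induction m generalizing n with
  | zero => rw [zero_add]; rfl
  | succ m ih =>
    have := h.symm' (φ := pw α p φ m) (ψ := pw α p φ n) (hφ.pw m) (hφ.pw n)
    have e : m + 1 + n = m + (n + 1) := by ring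
    rw [e, ← ih (n + 1)]
    exact this.symm

lemma transOp_sq_le (φ : UnitAddCircle → ℝ) (y : UnitAddCircle) :
    (transOp α p φ y) ^ 2 ≤ transOp α p (fun z => φ z ^ 2) y := by
  have h0 := (p y).2.1
  have h1 := sub_pos.2 (p y).2.2
  unfold transOp
  nlinarith [mul_pos h0 h1, sq_nonneg (φ (y + (α : UnitAddCircle)) - φ (y - (α : UnitAddCircle))),
    mul_nonneg (mul_pos h0 h1).le
      (sq_nonneg (φ (y + (α : UnitAddCircle)) - φ (y - (α : UnitAddCircle))))]

lemma BM.sq {φ : UnitAddCircle → ℝ} (h : BM φ) : BM fun y => φ y ^ 2 := by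
  simpa only [pow_two] using h.mul h

lemma energy_eq {ν : Measure UnitAddCircle} [IsFiniteMeasure ν] (h : Bal α p ν)
    {φ : UnitAddCircle → ℝ} (hφ : BM φ) (n : ℕ) :
    ∫ y, (pw α p φ n y) ^ 2 ∂ν = corr α p ν φ (n + n) := by
  rw [← pw_corr h hφ n n]
  simp only [pow_two]

lemma energy_anti {ν : Measure UnitAddCircle} [IsFiniteMeasure ν] (h : Bal α p ν)
    {φ : UnitAddCircle → ℝ} (hφ : BM φ) :
    Antitone fun n => ∫ y, (pw α p φ n y) ^ 2 ∂ν := by
  refine antitone_nat_of_succ_le fun n => ?_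
  calc ∫ y, (pw α p φ (n + 1) y) ^ 2 ∂ν
      ≤ ∫ y, transOp α p (fun z => (pw α p φ n z) ^ 2) y ∂ν := by
        refine integral_mono ((hφ.pw (n + 1)).sq.int ν) ((hφ.pw n).sq.transOp.int ν) fun y => ?_
        exact transOp_sq_le _ y
    _ = _ := h.stat (hφ.pw n).sq

lemma energy_tendsto {ν : Measure UnitAddCircle} [IsFiniteMeasure ν] (h : Bal α p ν)
    {φ : UnitAddCircle → ℝ} (hφ : BM φ) :
    ∃ l, Tendsto (fun n => ∫ y, (pw α p φ n y) ^ 2 ∂ν) atTop (𝓝 l) := by
  refine ⟨_, tendsto_atTop_ciInf (energy_anti h hφ) ⟨0, ?_⟩⟩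
  rintro _ ⟨n, rfl⟩
  exact integral_nonneg fun y => sq_nonneg _

/-- The two step Dirichlet form controls the increments over two steps to the right. -/
lemma dirichlet {ν : Measure UnitAddCircle} [IsFiniteMeasure ν] (h : Bal α p ν)
    {φ : UnitAddCircle → ℝ} (hφ : BM φ) (n : ℕ) :
    ∫ y, ((p y : ℝ) * (p (y + (α : UnitAddCircle)) : ℝ)) *
        (pw α p φ n (y + (α : UnitAddCircle) + (α : UnitAddCircle)) - pw α p φ n y) ^ 2 ∂ν
      ≤ 2 * (∫ y, (pw α p φ n y) ^ 2 ∂ν - ∫ y, (pw α p φ (n + 1) y) ^ 2 ∂ν) := by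
  set a := pw α p φ n with ha
  have hb : BM a := hφ.pw n
  have b1 : BM fun y => a y ^ 2 := hb.sq
  have b2 : BM (transOp α p (transOp α p fun z => a z ^ 2)) := b1.transOp.transOp
  have b3 : BM fun y => a y * transOp α p (transOp α p a) y := hb.mul hb.transOp.transOp
  have e1 : ∫ y, transOp α p (transOp α p fun z => a z ^ 2) y ∂ν = ∫ y, a y ^ 2 ∂ν := by
    rw [h.stat b1.transOp, h.stat b1]
  have e2 : ∫ y, a y * transOp α p (transOp α p a) y ∂ν
      = ∫ y, (pw α p φ (n + 1) y) ^ 2 ∂ν := by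
    rw [h.symm' hb hb.transOp]
    refine integral_congr_ae (Eventually.of_forall fun y => ?_)
    beta_reduce
    rw [← pow_two]
    rfl
  have e3 : ∫ y, ((transOp α p (transOp α p fun z => a z ^ 2) y + a y ^ 2)
      - (a y * transOp α p (transOp α p a) y + a y * transOp α p (transOp α p a) y)) ∂ν
      = 2 * (∫ y, a y ^ 2 ∂ν - ∫ y, (pw α p φ (n + 1) y) ^ 2 ∂ν) := by
    rw [integral_sub ((b2.add b1).int ν) ((b3.add b3).int ν), integral_add (b2.int ν) (b1.int ν),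
      integral_add (b3.int ν) (b3.int ν), e1, e2]
    ring
  rw [← e3]
  refine integral_mono ?_ (((b2.add b1).sub (b3.add b3)).int ν) fun y => ?_
  · exact ((bmP.mul (bmP.shift _)).mul (((hb.shift _).shift _).sub hb).sq).int ν
  · beta_reduce
    have h0 := (p y).2.1
    have h1 := sub_pos.2 (p y).2.2
    have h2 := (p (y + (α : UnitAddCircle))).2.1
    have h3 := sub_pos.2 (p (y + (α : UnitAddCircle))).2.2
    have h4 := (p (y - (α : UnitAddCircle))).2.1
    have h5 := sub_pos.2 (p (y - (α : UnitAddCircle))).2.2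
    unfold transOp
    simp only [add_sub_cancel_right, sub_add_cancel]
    have key : ((p y : ℝ) * ((p (y + (α : UnitAddCircle)) : ℝ) * a (y + α + α) ^ 2
        + (1 - (p (y + (α : UnitAddCircle)) : ℝ)) * a y ^ 2)
        + (1 - (p y : ℝ)) * ((p (y - (α : UnitAddCircle)) : ℝ) * a y ^ 2
        + (1 - (p (y - (α : UnitAddCircle)) : ℝ)) * a (y - α - α) ^ 2) + a y ^ 2)
        - (a y * ((p y : ℝ) * ((p (y + (α : UnitAddCircle)) : ℝ) * a (y + α + α)
        + (1 - (p (y + (α : UnitAddCircle)) : ℝ)) * a y)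
        + (1 - (p y : ℝ)) * ((p (y - (α : UnitAddCircle)) : ℝ) * a y
        + (1 - (p (y - (α : UnitAddCircle)) : ℝ)) * a (y - α - α)))
        + a y * ((p y : ℝ) * ((p (y + (α : UnitAddCircle)) : ℝ) * a (y + α + α)
        + (1 - (p (y + (α : UnitAddCircle)) : ℝ)) * a y)
        + (1 - (p y : ℝ)) * ((p (y - (α : UnitAddCircle)) : ℝ) * a y
        + (1 - (p (y - (α : UnitAddCircle)) : ℝ)) * a (y - α - α))))
        = ((p y : ℝ) * (p (y + (α : UnitAddCircle)) : ℝ)) * (a (y + α + α) - a y) ^ 2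
        + ((1 - (p y : ℝ)) * (1 - (p (y - (α : UnitAddCircle)) : ℝ))) * (a (y - α - α) - a y) ^ 2 := by
      ring
    rw [key]
    have := mul_nonneg (mul_pos h1 h5).le (sq_nonneg (a (y - α - α) - a y))
    linarith

end

end Pool.Agent.Hhelper98.QuasiWalk
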